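import Mathlib

/-!
# The 0-Hecke action on signed combinations of configurations
-/

namespace Pool.Agent.Y999.ST

/-- Configurations. Negative values: labelled particles, `0`: neutral, positive values: big. -/
abbrev Cfg := ℤ → ℤ

/-- Signed combinations of configurations. -/
abbrev V := Cfg →₀ ℤ

/-- Exchange the values at `k`, `k + 1`. -/
def sw (k : ℤ) (y : Cfg) : Cfg := fun s => if s = k then y (k + 1) else if s = k + 1 then y k else y s

/-- The move at the edge `(k, k + 1)`. -/
def act (k : ℤ) (y : Cfg) : Cfg := if y k < y (k + 1) then sw k y else y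

theorem sw_l (k : ℤ) (y : Cfg) : sw k y k = y (k + 1) := by simp [sw]
theorem sw_r (k : ℤ) (y : Cfg) : sw k y (k + 1) = y k := by simp [sw]
theorem sw_o (k : ℤ) (y : Cfg) (s : ℤ) (h1 : s ≠ k) (h2 : s ≠ k + 1) : sw k y s = y s := by
  simp [sw, h1, h2]

theorem sw_sw (k : ℤ) (y : Cfg) : sw k (sw k y) = y := by
  funext s
  simp only [sw]
  split_ifs <;> first | rfl | omega | (subst_vars; rfl)

theorem act_o (k : ℤ) (y : Cfg) (s : ℤ) (h1 : s ≠ k) (h2 : s ≠ k + 1) : act k y s = y s := by
  unfold act; split_ifs
  · exact sw_o k y s h1 h2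
  · rfl

theorem act_l (k : ℤ) (y : Cfg) : act k y k = max (y k) (y (k + 1)) := by
  unfold act; split_ifs with h
  · rw [sw_l, max_eq_right h.le]
  · rw [max_eq_left (not_lt.mp h)]

theorem act_r (k : ℤ) (y : Cfg) : act k y (k + 1) = min (y k) (y (k + 1)) := by
  unfold act; split_ifs with h
  · rw [sw_r, min_eq_left h.le]
  · rw [min_eq_right (not_lt.mp h)]

theorem act_apply (k : ℤ) (y : Cfg) (s : ℤ) : act k y s =
    if s = k then max (y k) (y (k + 1)) else if s = k + 1 then min (y k) (y (k + 1)) else y s := by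
  split_ifs with h1 h2
  · subst h1; exact act_l _ _
  · subst h2; exact act_r _ _
  · exact act_o _ _ _ h1 h2

theorem act_idem (k : ℤ) (y : Cfg) : act k (act k y) = act k y := by
  have h : ¬ (act k y k < act k y (k + 1)) := by
    rw [act_l, act_r]; simp
  conv_lhs => rw [act]
  rw [if_neg h]

theorem act_comm (i j : ℤ) (h : i + 2 ≤ j) (y : Cfg) : act i (act j y) = act j (act i y) := by
  funext s
  simp only [act_apply]
  have e1 : ¬ (i = j) := by omega
  have e2 : ¬ (i = j + 1) := by omega
  have e3 : ¬ (i + 1 = j) := by omega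
  have e4 : ¬ (i + 1 = j + 1) := by omega
  have e5 : ¬ (j = i) := by omega
  have e6 : ¬ (j = i + 1) := by omega
  have e7 : ¬ (j + 1 = i) := by omega
  have e8 : ¬ (j + 1 = i + 1) := by omega
  simp only [e1, e2, e3, e4, e5, e6, e7, e8, if_false]
  split_ifs <;> first | rfl | omega

theorem act_braid (k : ℤ) (y : Cfg) :
    act k (act (k + 1) (act k y)) = act (k + 1) (act k (act (k + 1) y)) := by
  funext s
  simp only [act_apply]
  have e1 : ¬ (k = k + 1) := by omega
  have e2 : ¬ (k + 1 = k) := by omega
  have e3 : ¬ (k = k + 1 + 1) := by omega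
  have e4 : ¬ (k + 1 + 1 = k) := by omega
  have e5 : ¬ (k + 1 + 1 = k + 1) := by omega
  have e6 : ¬ (k + 1 = k + 1 + 1) := by omega
  simp only [e1, e2, e3, e4, e5, e6, if_false, if_true]
  split_ifs <;> first | rfl | omega

/-- The linear extension of the move at the edge `(k, k + 1)`. -/
noncomputable def P (k : ℤ) : V →ₗ[ℤ] V := Finsupp.lmapDomain ℤ ℤ (act k)

theorem P_single (k : ℤ) (y : Cfg) (c : ℤ) : P k (Finsupp.single y c) = Finsupp.single (act k y) c := by
  simp [P, Finsupp.lmapDomain_apply, Finsupp.mapDomain_single]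

theorem P_idem (k : ℤ) : P k * P k = P k := by
  apply Finsupp.lhom_ext
  intro y c
  simp only [Module.End.mul_apply, P_single, act_idem]

theorem P_comm (i j : ℤ) (h : i + 2 ≤ j) : P i * P j = P j * P i := by
  apply Finsupp.lhom_ext
  intro y c
  simp only [Module.End.mul_apply, P_single, act_comm i j h]

theorem P_braid (k : ℤ) : P k * (P (k + 1) * P k) = P (k + 1) * (P k * P (k + 1)) := by
  apply Finsupp.lhom_ext
  intro y c
  simp only [Module.End.mul_apply, P_single, act_braid]

theorem P_idem_v (k : ℤ) (v : V) : P k (P k v) = P k v := by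
  rw [← Module.End.mul_apply, P_idem]

theorem P_comm_v (i j : ℤ) (h : i + 2 ≤ j) (v : V) : P i (P j v) = P j (P i v) := by
  rw [← Module.End.mul_apply, P_comm i j h, Module.End.mul_apply]

/-- The operator attached to an ascent `u < w` at `(k, k+1)`. -/
noncomputable def th (k u w : ℤ) : V →ₗ[ℤ] V :=
  if w < 0 then P k else if 0 < u then P (k + 1) else P k + P (k + 1) - 1

/-! ### Ring identities -/

section ringid
variable {R : Type*} [Ring R]

theorem rid_comm (a b : R) (haa : a * a = a) (hbb : b * b = b) (hbr : a * (b * a) = b * (a * b)) :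
    a * (b * (a + b - 1)) = b * (a * (a + b - 1)) := by
  simp only [mul_add, mul_sub, mul_one, haa, hbb, hbr]
  abel

theorem rid_llb (a b c : R) (haa : a * a = a) (hbb : b * b = b)
    (hac : a * c = c * a) (hbr : a * (b * a) = b * (a * b)) :
    (a + b - 1) * ((b + c - 1) * a) = b * ((a + b - 1) * (b + c - 1)) := by
  have haca : a * (c * a) = c * a := by rw [← hac, ← mul_assoc, haa]
  have hbba : b * (b * a) = b * a := by rw [← mul_assoc, hbb]
  have hbbc : b * (b * c) = b * c := by rw [← mul_assoc, hbb]
  simp only [mul_add, mul_sub, mul_one, add_mul, sub_mul, one_mul, haa, hbb, hbr, haca, hbba,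
    hbbc, hac]
  abel

theorem rid_lbb (a b c : R) (hbb : b * b = b) (hcc : c * c = c)
    (hac : a * c = c * a) (hbr : b * (c * b) = c * (b * c)) :
    b * ((b + c - 1) * (a + b - 1)) = (b + c - 1) * ((a + b - 1) * c) := by
  have hbba : b * (b * a) = b * a := by rw [← mul_assoc, hbb]
  have hbbc : b * (b * c) = b * c := by rw [← mul_assoc, hbb]
  have hcca : c * (c * a) = c * a := by rw [← mul_assoc, hcc]
  simp only [mul_add, mul_sub, mul_one, add_mul, sub_mul, one_mul, hbb, hcc, hbr, hbba,
    hbbc, hac, hcca]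
  abel

end ringid

/-- The braid relation for the operators `th`. -/
theorem th_braid (i a b c : ℤ) (hab : b < a) (hbc : c < b) (ha : a ≠ 0) (hb : b ≠ 0) (hc : c ≠ 0) :
    th i b a * (th (i + 1) c a * th i c b) = th (i + 1) c b * (th i c a * th (i + 1) b a) := by
  have h2 : i + 1 + 1 = i + 2 := by ring
  have br1 := P_braid i
  have br2 := P_braid (i + 1)
  rw [h2] at br2
  have cm := P_comm i (i + 2) le_rfl
  unfold th
  rw [h2]
  rcases lt_or_gt_of_ne ha with ha' | ha'
  · have hb' : b < 0 := by omega
    simp only [ha', hb', if_true]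
    exact br1
  · rcases lt_or_gt_of_ne hb with hb' | hb'
    · have hc' : c < 0 := by omega
      have n1 : ¬ a < 0 := by omega
      have n2 : ¬ 0 < b := by omega
      have n3 : ¬ 0 < c := by omega
      simp only [n1, n2, n3, hb', if_true, if_false]
      exact rid_llb _ _ _ (P_idem i) (P_idem _) cm br1
    · have n1 : ¬ a < 0 := by omega
      have n2 : ¬ b < 0 := by omega
      rcases lt_or_gt_of_ne hc with hc' | hc'
      · have n3 : ¬ 0 < c := by omega
        simp only [n1, n2, n3, hb', if_true, if_false]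
        exact rid_lbb _ _ _ (P_idem _) (P_idem _) cm br2
      · simp only [n1, n2, hb', hc', if_true, if_false]
        exact br2

/-- Far commutation. -/
theorem th_comm_far (i j u w u' w' : ℤ) (h : i + 3 ≤ j) : th i u w * th j u' w' =
    th j u' w' * th i u w := by
  have c1 := P_comm i j (by omega)
  have c2 := P_comm i (j + 1) (by omega)
  have c3 := P_comm (i + 1) j (by omega)
  have c4 := P_comm (i + 1) (j + 1) (by omega)
  unfold th
  split_ifs <;>
    simp only [mul_add, mul_sub, mul_one, add_mul, sub_mul, one_mul, c1, c2, c3, c4] <;> abel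

/-- Commutation at distance two when the operators do not overlap. -/
theorem th_comm_two (i u w u' w' : ℤ) (h : w < 0 ∨ 0 < u')
    (hw' : u' < w') : th i u w * th (i + 2) u' w' = th (i + 2) u' w' * th i u w := by
  have c1 := P_comm i (i + 2) (by omega)
  have c2 := P_comm i (i + 2 + 1) (by omega)
  have c4 := P_comm (i + 1) (i + 2 + 1) (by omega)
  unfold th
  rcases h with h | h
  · simp only [h, if_true]
    split_ifs <;>
      simp only [mul_add, mul_sub, mul_one, add_mul, sub_mul, one_mul, c1, c2]
  · have n1 : ¬ w' < 0 := by omega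
    simp only [n1, h, if_true, if_false]
    split_ifs <;>
      simp only [mul_add, mul_sub, mul_one, add_mul, sub_mul, one_mul, c2, c4]

/-- Commutation at distance two after a mixed swap in the middle. -/
theorem th_comm_mix (i u w u' w' : ℤ) (h : 0 < w) (hu' : u' < 0) (v : V) :
    th i u w (th (i + 2) u' w' ((P (i + 1) + P (i + 2) - 1 : V →ₗ[ℤ] V) v)) =
    th (i + 2) u' w' (th i u w ((P (i + 1) + P (i + 2) - 1 : V →ₗ[ℤ] V) v)) := by
  have key : th i u w * (th (i + 2) u' w' * (P (i + 1) + P (i + 2) - 1)) =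
      th (i + 2) u' w' * (th i u w * (P (i + 1) + P (i + 2) - 1)) := by
    have h3 : i + 2 + 1 = i + 3 := by ring
    have c1 := P_comm i (i + 2) (by omega)
    have c2 := P_comm i (i + 3) (by omega)
    have c4 := P_comm (i + 1) (i + 3) (by omega)
    have br := P_braid (i + 1)
    have h2 : i + 1 + 1 = i + 2 := by ring
    rw [h2] at br
    have sp := rid_comm (P (i + 1)) (P (i + 2)) (P_idem _) (P_idem _) br
    set r : V →ₗ[ℤ] V := P (i + 1) + P (i + 2) - 1 with hr
    have n1 : ¬ w < 0 := by omega
    have n2 : ¬ 0 < u' := by omega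
    have c1' : ∀ x : V →ₗ[ℤ] V, P i * (P (i + 2) * x) = P (i + 2) * (P i * x) := fun x => by
      rw [← mul_assoc, c1, mul_assoc]
    have c2' : ∀ x : V →ₗ[ℤ] V, P i * (P (i + 3) * x) = P (i + 3) * (P i * x) := fun x => by
      rw [← mul_assoc, c2, mul_assoc]
    have c4' : ∀ x : V →ₗ[ℤ] V, P (i + 1) * (P (i + 3) * x) = P (i + 3) * (P (i + 1) * x) :=
      fun x => by rw [← mul_assoc, c4, mul_assoc]
    unfold th
    rw [h3]
    simp only [n1, n2, if_false]
    split_ifs <;>
      simp only [mul_add, mul_sub, mul_one, add_mul, sub_mul, one_mul, sp, c1', c2', c4'] <;> abel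
  have := congrArg (fun f : V →ₗ[ℤ] V => f v) key
  simpa only [Module.End.mul_apply] using this

end Pool.Agent.Y999.ST
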