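import Pool.Agent.Y999.ST.Psi3

/-!
# The full intertwiner and the local identity
-/

namespace Pool.Agent.Y999.ST

/-- The core of a configuration. -/
def core (κ lam : ℤ) (ξ : Cfg) : Cfg := fun s => if κ < s ∧ s < lam then ξ s else 0

/-- Overlay: the part left of `κ` shifted by one to the right, a word on `(κ, lam]`, and the part
right of `lam`. -/
def ov (κ lam : ℤ) (ξ : Cfg) (y : Cfg) : Cfg :=
  fun s => if s ≤ κ then ξ (s - 1) else if s ≤ lam then y s else ξ s

/-- The full intertwiner. -/
noncomputable def FF (W κ lam : ℤ) (ξ : Cfg) : V :=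
  Finsupp.lmapDomain ℤ ℤ (ov κ lam ξ) (Psi W (core κ lam ξ))

/-- Admissible configurations. -/
structure XT (W κ lam : ℤ) (ξ : Cfg) : Prop where
  lt : κ < lam
  z1 : ξ κ = 0
  z2 : ξ lam = 0
  le : ∀ s, s < κ → 0 ≤ ξ s
  ri : ∀ s, lam < s → ξ s ≤ 0
  ne : ∀ s, κ < s → s < lam → ξ s ≠ 0
  inj : ∀ s t, ξ s ≠ 0 → ξ s = ξ t → s = t
  bdv : ∀ s, |ξ s| ≤ W
  kW : -W ≤ κ
  lW : lam ≤ W

/-- The next left boundary. -/
noncomputable def nk (κ k : ℤ) (ξ : Cfg) : ℤ := if k = κ ∧ 0 < ξ (κ + 1) then κ + 1 else κ

/-- The next right boundary. -/
noncomputable def nl (lam k : ℤ) (ξ : Cfg) : ℤ := if k + 1 = lam ∧ ξ (lam - 1) < 0 then lam - 1 else lam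

theorem Bd_core {W κ lam : ℤ} {ξ : Cfg} (h : XT W κ lam ξ) : Bd W (core κ lam ξ) := by
  intro s hs
  simp only [core] at hs ⊢
  by_cases h1 : κ < s ∧ s < lam
  · rw [if_pos h1]
    have := h.kW; have := h.lW
    exact ⟨by omega, by omega, h.bdv s⟩
  · rw [if_neg h1] at hs; exact absurd rfl hs

theorem Co_core {W κ lam : ℤ} {ξ : Cfg} (h : XT W κ lam ξ) : Co (κ + 1) lam (core κ lam ξ) := by
  intro s
  simp only [core]
  by_cases h1 : κ < s ∧ s < lam
  · rw [if_pos h1]
    exact ⟨fun _ => by omega, fun _ => h.ne s h1.1 h1.2⟩
  · rw [if_neg h1]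
    constructor
    · intro h2; exact absurd rfl h2
    · intro h2; omega

theorem act_sw_or (k : ℤ) (ξ : Cfg) : act k ξ = ξ ∨ act k ξ = sw k ξ := by
  unfold act; split_ifs
  · exact Or.inr rfl
  · exact Or.inl rfl

theorem act_id {k : ℤ} {ξ : Cfg} (h : ξ (k + 1) ≤ ξ k) : act k ξ = ξ := by
  unfold act; rw [if_neg (not_lt.mpr h)]

theorem act_sw {k : ℤ} {ξ : Cfg} (h : ξ k < ξ (k + 1)) : act k ξ = sw k ξ := by
  unfold act; rw [if_pos h]

theorem sw_eq (k : ℤ) (ξ : Cfg) (s : ℤ) : sw k ξ s = ξ (Equiv.swap k (k + 1) s) := by
  simp only [sw, Equiv.swap_apply_def]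
  split_ifs <;> rfl

theorem XT_step {W κ lam : ℤ} {ξ : Cfg} (h : XT W κ lam ξ) (k : ℤ) :
    XT W (nk κ k ξ) (nl lam k ξ) (act k ξ) := by
  have hinj : ∀ s t, act k ξ s ≠ 0 → act k ξ s = act k ξ t → s = t := by
    rcases act_sw_or k ξ with h1 | h1
    · rw [h1]; exact h.inj
    · rw [h1]
      intro s t hs hst
      rw [sw_eq] at hs hst
      rw [sw_eq] at hst
      exact (Equiv.swap k (k + 1)).injective (h.inj _ _ hs hst)
  have hbd : ∀ s, |act k ξ s| ≤ W := by
    rcases act_sw_or k ξ with h1 | h1
    · rw [h1]; exact h.bdv
    · rw [h1]; intro s; rw [sw_eq]; exact h.bdv _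
  have hk := h.kW
  have hl := h.lW
  have hlt := h.lt
  have z1 := h.z1
  have z2 := h.z2
  by_cases c1 : k = κ ∧ 0 < ξ (κ + 1)
  · -- left emission
    obtain ⟨rfl, c1⟩ := c1
    have hl1 : k + 1 < lam := by
      by_contra h1
      have : k + 1 = lam := by omega
      rw [this] at c1; omega
    have e1 : nk k k ξ = k + 1 := by unfold nk; rw [if_pos ⟨rfl, c1⟩]
    have e2 : nl lam k ξ = lam := by unfold nl; rw [if_neg (by omega)]
    have e3 : act k ξ = sw k ξ := act_sw (by omega)
    rw [e1, e2]
    refine ⟨hl1, ?_, ?_, ?_, ?_, ?_, hinj, hbd, by omega, by omega⟩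
    · rw [e3, sw_r]; exact z1
    · rw [e3, sw_o _ _ _ (by omega) (by omega)]; exact z2
    · intro s hs
      rw [e3]
      by_cases h2 : s = k
      · subst h2; rw [sw_l]; exact c1.le
      · rw [sw_o _ _ _ h2 (by omega)]; exact h.le s (by omega)
    · intro s hs
      rw [e3, sw_o _ _ _ (by omega) (by omega)]; exact h.ri s hs
    · intro s hs1 hs2
      rw [e3, sw_o _ _ _ (by omega) (by omega)]; exact h.ne s (by omega) hs2
  · by_cases c2 : k + 1 = lam ∧ ξ (lam - 1) < 0
    · obtain ⟨rfl, c2⟩ := c2
      have e0 : k + 1 - 1 = k := by ring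
      rw [e0] at c2
      have hl1 : κ < k := by
        by_contra h1
        have : k = κ := by omega
        rw [this] at c2; omega
      have e1 : nk κ k ξ = κ := by unfold nk; rw [if_neg (by omega)]
      have e2 : nl (k + 1) k ξ = k := by
        unfold nl; rw [e0, if_pos ⟨rfl, c2⟩]
      have e3 : act k ξ = sw k ξ := act_sw (by omega)
      rw [e1, e2]
      refine ⟨hl1, ?_, ?_, ?_, ?_, ?_, hinj, hbd, by omega, by omega⟩
      · rw [e3, sw_o _ _ _ (by omega) (by omega)]; exact z1
      · rw [e3, sw_l]; exact z2
      · intro s hs
        rw [e3, sw_o _ _ _ (by omega) (by omega)]; exact h.le s hs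
      · intro s hs
        rw [e3]
        by_cases h2 : s = k + 1
        · subst h2; rw [sw_r]; exact c2.le
        · rw [sw_o _ _ _ (by omega) h2]; exact h.ri s (by omega)
      · intro s hs1 hs2
        rw [e3, sw_o _ _ _ (by omega) (by omega)]; exact h.ne s (by omega) (by omega)
    · have e1 : nk κ k ξ = κ := by unfold nk; rw [if_neg c1]
      have e2 : nl lam k ξ = lam := by unfold nl; rw [if_neg c2]
      rw [e1, e2]
      have z1' : act k ξ κ = 0 := by
        rw [act_apply]
        by_cases h1 : κ = k
        · subst h1
          rw [if_pos rfl, z1]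
          have : ¬ 0 < ξ (κ + 1) := fun h2 => c1 ⟨rfl, h2⟩
          omega
        · rw [if_neg h1]
          by_cases h2 : κ = k + 1
          · subst h2
            rw [if_pos rfl, z1]
            have := h.le k (by omega)
            omega
          · rw [if_neg h2]; exact z1
      have z2' : act k ξ lam = 0 := by
        rw [act_apply]
        by_cases h1 : lam = k
        · subst h1
          rw [if_pos rfl, z2]
          have := h.ri (lam + 1) (by omega)
          omega
        · rw [if_neg h1]
          by_cases h2 : lam = k + 1
          · subst h2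
            have e0 : k + 1 - 1 = k := by ring
            rw [e0] at c2
            have : ¬ ξ k < 0 := fun h2 => c2 ⟨rfl, h2⟩
            rw [if_pos rfl, z2]
            omega
          · rw [if_neg h2]; exact z2
      refine ⟨hlt, z1', z2', ?_, ?_, ?_, hinj, hbd, hk, hl⟩
      · intro s hs
        rw [act_apply]
        by_cases h1 : s = k
        · subst h1
          rw [if_pos rfl]
          have := h.le s hs
          exact le_max_of_le_left this
        · rw [if_neg h1]
          by_cases h2 : s = k + 1
          · subst h2
            rw [if_pos rfl]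
            exact le_min (h.le k (by omega)) (h.le _ hs)
          · rw [if_neg h2]; exact h.le s hs
      · intro s hs
        rw [act_apply]
        by_cases h1 : s = k
        · subst h1
          rw [if_pos rfl]
          exact max_le (h.ri s hs) (h.ri _ (by omega))
        · rw [if_neg h1]
          by_cases h2 : s = k + 1
          · subst h2
            rw [if_pos rfl]
            exact min_le_of_right_le (h.ri _ hs)
          · rw [if_neg h2]; exact h.ri s hs
      · intro s hs1 hs2
        rw [act_apply]
        by_cases h1 : s = k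
        · subst h1
          rw [if_pos rfl]
          have n1 := h.ne s hs1 hs2
          by_cases h3 : s + 1 = lam
          · have : ¬ ξ s < 0 := by
              intro h4; apply c2; refine ⟨h3, ?_⟩
              rw [← h3]; have e0 : s + 1 - 1 = s := by ring
              rw [e0]; exact h4
            rw [h3, z2]
            omega
          · have n2 := h.ne (s + 1) (by omega) (by omega)
            omega
        · rw [if_neg h1]
          by_cases h2 : s = k + 1
          · subst h2
            rw [if_pos rfl]
            have n1 := h.ne _ hs1 hs2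
            by_cases h3 : k = κ
            · subst h3
              rw [z1]
              have : ¬ 0 < ξ (k + 1) := fun h4 => c1 ⟨rfl, h4⟩
              omega
            · have n2 := h.ne k (by omega) (by omega)
              omega
          · rw [if_neg h2]; exact h.ne s hs1 hs2

/-! ### The moves on overlays -/

theorem ov_mid {κ lam : ℤ} (ξ y : Cfg) {j : ℤ} (h1 : κ < j) (h2 : j < lam) :
    act j (ov κ lam ξ y) = ov κ lam ξ (act j y) := by
  funext s
  have e1 : ov κ lam ξ y j = y j := by simp only [ov]; rw [if_neg (by omega), if_pos (by omega)]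
  have e2 : ov κ lam ξ y (j + 1) = y (j + 1) := by
    simp only [ov]; rw [if_neg (by omega), if_pos (by omega)]
  rw [act_apply, e1, e2]
  simp only [ov]
  rw [act_apply]
  by_cases h3 : s = j
  · subst h3; rw [if_pos rfl, if_neg (by omega), if_pos (by omega), if_pos rfl]
  · by_cases h4 : s = j + 1
    · subst h4; rw [if_neg h3, if_pos rfl, if_neg (by omega), if_pos (by omega), if_neg h3, if_pos rfl]
    · rw [if_neg h3, if_neg h4, if_neg h3, if_neg h4]

theorem ov_left {κ lam : ℤ} (ξ y : Cfg) {j : ℤ} (h2 : j + 2 ≤ κ) (hl : κ < lam) :
    act (j + 1) (ov κ lam ξ y) = ov κ lam (act j ξ) y := by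
  funext s
  have e0 : j + 1 - 1 = j := by ring
  have e0' : j + 1 + 1 - 1 = j + 1 := by ring
  have e1 : ov κ lam ξ y (j + 1) = ξ j := by simp only [ov]; rw [if_pos (by omega), e0]
  have e2 : ov κ lam ξ y (j + 1 + 1) = ξ (j + 1) := by
    simp only [ov]; rw [if_pos (by omega), e0']
  rw [act_apply, e1, e2]
  simp only [ov]
  rw [act_apply, act_apply]
  by_cases h3 : s = j + 1
  · subst h3; rw [if_pos rfl, if_pos (by omega), if_pos e0]
  · by_cases h4 : s = j + 1 + 1
    · subst h4; rw [if_neg h3, if_pos rfl, if_pos (by omega), if_neg (by omega), if_pos e0']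
    · rw [if_neg h3, if_neg h4]
      by_cases h5 : s ≤ κ
      · rw [if_pos h5, if_pos h5, if_neg (by omega), if_neg (by omega)]
      · rw [if_neg h5, if_neg h5]
        by_cases h6 : s ≤ lam
        · rw [if_pos h6, if_pos h6]
        · rw [if_neg h6, if_neg h6, if_neg (by omega), if_neg (by omega)]

theorem ov_right {κ lam : ℤ} (ξ y : Cfg) {j : ℤ} (h2 : lam < j) (hl : κ < lam) :
    act j (ov κ lam ξ y) = ov κ lam (act j ξ) y := by
  funext s
  have e1 : ov κ lam ξ y j = ξ j := by simp only [ov]; rw [if_neg (by omega), if_neg (by omega)]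
  have e2 : ov κ lam ξ y (j + 1) = ξ (j + 1) := by
    simp only [ov]; rw [if_neg (by omega), if_neg (by omega)]
  rw [act_apply, e1, e2]
  simp only [ov]
  rw [act_apply, act_apply]
  by_cases h3 : s = j
  · subst h3; rw [if_pos rfl, if_neg (by omega), if_neg (by omega), if_pos rfl]
  · by_cases h4 : s = j + 1
    · subst h4
      rw [if_neg h3, if_pos rfl, if_neg (by omega), if_neg (by omega), if_neg h3, if_pos rfl]
    · rw [if_neg h3, if_neg h4, if_neg h3, if_neg h4]
      by_cases h5 : s ≤ κ
      · rw [if_pos h5, if_pos h5, if_neg (by omega), if_neg (by omega)]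
      · rw [if_neg h5, if_neg h5]

theorem ov_kappa {κ lam : ℤ} (ξ y : Cfg) (hl : κ < lam) (h : y (κ + 1) ≤ ξ (κ - 1)) :
    act κ (ov κ lam ξ y) = ov κ lam ξ y := by
  apply act_id
  simp only [ov]
  rw [if_neg (by omega), if_pos (by omega), if_pos le_rfl]
  exact h

theorem ov_lam {κ lam : ℤ} (ξ y : Cfg) (hl : κ < lam) (h : ξ (lam + 1) ≤ y lam) :
    act lam (ov κ lam ξ y) = ov κ lam ξ y := by
  apply act_id
  simp only [ov]
  rw [if_neg (by omega), if_neg (by omega), if_neg (by omega), if_pos le_rfl]
  exact h

/-- Push a `P` through the overlay map. -/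
theorem P_map_of {f g h : Cfg → Cfg} {k : ℤ} (v : V)
    (H : ∀ y ∈ v.support, act k (f y) = h (g y)) :
    P k (Finsupp.lmapDomain ℤ ℤ f v) = Finsupp.lmapDomain ℤ ℤ h (Finsupp.lmapDomain ℤ ℤ g v) := by
  unfold P
  rw [Finsupp.lmapDomain_apply, Finsupp.lmapDomain_apply, Finsupp.lmapDomain_apply,
    Finsupp.lmapDomain_apply, ← Finsupp.mapDomain_comp, ← Finsupp.mapDomain_comp]
  exact Finsupp.mapDomain_congr H

theorem map_congr' {f g : Cfg → Cfg} (v : V) (H : ∀ y ∈ v.support, f y = g y) :
    Finsupp.lmapDomain ℤ ℤ f v = Finsupp.lmapDomain ℤ ℤ g v := by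
  rw [Finsupp.lmapDomain_apply, Finsupp.lmapDomain_apply]
  exact Finsupp.mapDomain_congr H

theorem P_map_id {f : Cfg → Cfg} {k : ℤ} (v : V) (H : ∀ y ∈ v.support, act k (f y) = f y) :
    P k (Finsupp.lmapDomain ℤ ℤ f v) = Finsupp.lmapDomain ℤ ℤ f v := by
  have := P_map_of (f := f) (g := id) (h := f) (k := k) v H
  rw [this, Finsupp.lmapDomain_id]
  rfl

theorem FF_mid {W κ lam : ℤ} (ξ : Cfg) {j : ℤ} (h1 : κ < j) (h2 : j < lam) :
    P j (FF W κ lam ξ) = Finsupp.lmapDomain ℤ ℤ (ov κ lam ξ) (P j (Psi W (core κ lam ξ))) :=
  P_map_of (f := ov κ lam ξ) (g := act j) (h := ov κ lam ξ) _ (fun y _ => ov_mid ξ y h1 h2)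

/-- The local identity. -/
theorem loc {W κ lam : ℤ} {ξ : Cfg} (h : XT W κ lam ξ) (k : ℤ) :
    FF W (nk κ k ξ) (nl lam k ξ) (act k ξ) = FF W κ lam ξ +
      (if ξ k < 0 ∨ lam ≤ k then P k (FF W κ lam ξ) - FF W κ lam ξ else 0) +
      (if 0 < ξ (k + 1) ∨ k + 1 ≤ κ then P (k + 1) (FF W κ lam ξ) - FF W κ lam ξ else 0) := by
  have hlt := h.lt
  have z1 := h.z1
  have z2 := h.z2
  have hBd := Bd_core h
  have hCo := Co_core h
  rcases lt_trichotomy k κ with hk | hk | hk
  · -- left part
    have hle := h.le k hk
    have e1 : nk κ k ξ = κ := by unfold nk; rw [if_neg (by omega)]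
    have e2 : nl lam k ξ = lam := by unfold nl; rw [if_neg (by omega)]
    rw [e1, e2, if_neg (by omega), if_pos (by omega), add_zero, add_sub_cancel]
    by_cases h2 : k + 1 = κ
    · subst h2
      rw [act_id (by rw [z1]; exact hle)]
      symm
      apply P_map_id
      intro y hy
      apply ov_kappa _ _ hlt
      have e0 : k + 1 - 1 = k := by ring
      have := firstL hBd hCo (by omega) y hy
      rw [e0]; omega
    · have e3 : core κ lam (act k ξ) = core κ lam ξ := by
        funext s
        simp only [core]
        by_cases h3 : κ < s ∧ s < lam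
        · rw [if_pos h3, if_pos h3, act_o _ _ _ (by omega) (by omega)]
        · rw [if_neg h3, if_neg h3]
      unfold FF
      rw [e3]
      have := P_map_of (f := ov κ lam ξ) (g := id) (h := ov κ lam (act k ξ)) (k := k + 1)
        (Psi W (core κ lam ξ)) (fun y _ => ov_left ξ y (by omega) hlt)
      rw [this, Finsupp.lmapDomain_id]
      rfl
  · -- left emission
    subst hk
    by_cases h3 : 0 < ξ (k + 1)
    · have hl1 : k + 1 < lam := by
        by_contra h1
        have : k + 1 = lam := by omega
        rw [this] at h3; omega
      have e1 : nk k k ξ = k + 1 := by unfold nk; rw [if_pos ⟨rfl, h3⟩]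
      have e2 : nl lam k ξ = lam := by unfold nl; rw [if_neg (by omega)]
      rw [e1, e2, if_neg (by omega), if_pos (Or.inl h3), add_zero, add_sub_cancel]
      rw [FF_mid ξ (by omega) hl1]
      have c1 : core k lam ξ (k + 1) = ξ (k + 1) := by
        simp only [core]; rw [if_pos (by omega)]
      rw [emitL hBd hCo hl1 (by rw [c1]; exact h3), c1]
      have e3 : act k ξ = sw k ξ := act_sw (by omega)
      have e4 : core (k + 1) lam (act k ξ) = Function.update (core k lam ξ) (k + 1) 0 := by
        funext s
        rw [e3]
        simp only [core, Function.update_apply]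
        by_cases h4 : s = k + 1
        · rw [if_neg (by omega), if_pos h4]
        · rw [if_neg h4]
          by_cases h5 : k < s ∧ s < lam
          · rw [if_pos (by omega), if_pos h5, sw_o _ _ _ (by omega) (by omega)]
          · rw [if_neg (by omega), if_neg h5]
      unfold FF
      rw [e4]
      unfold addc
      rw [Finsupp.lmapDomain_apply, Finsupp.lmapDomain_apply, Finsupp.lmapDomain_apply,
        ← Finsupp.mapDomain_comp]
      apply Finsupp.mapDomain_congr
      intro y _
      funext s
      simp only [ov, Function.comp, Function.update_apply]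
      rw [e3]
      have e0 : k + 1 - 1 = k := by ring
      by_cases h4 : s = k + 1
      · subst h4
        rw [if_pos le_rfl, if_neg (by omega), if_pos hl1.le, if_pos rfl, e0, sw_l]
      · by_cases h5 : s ≤ k
        · rw [if_pos (by omega), if_pos h5, sw_o _ _ _ (by omega) (by omega)]
        · by_cases h6 : s ≤ lam
          · rw [if_neg (by omega), if_neg h5, if_pos h6, if_pos h6, if_neg h4]
          · rw [if_neg (by omega), if_neg h5, if_neg h6, if_neg h6,
              sw_o _ _ _ (by omega) (by omega)]
    · have e1 : nk k k ξ = k := by unfold nk; rw [if_neg (by tauto)]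
      have e2 : nl lam k ξ = lam := by
        unfold nl
        rw [if_neg]
        rintro ⟨rfl, h4⟩
        have e0 : k + 1 - 1 = k := by ring
        rw [e0] at h4
        omega
      rw [e1, e2, if_neg (by omega), if_neg (by omega), add_zero, add_zero,
        act_id (by omega)]
  · by_cases hk2 : k + 1 < lam
    · -- core
      have e1 : nk κ k ξ = κ := by unfold nk; rw [if_neg (by omega)]
      have e2 : nl lam k ξ = lam := by unfold nl; rw [if_neg (by omega)]
      have n1 := h.ne k hk (by omega)
      have n2 := h.ne (k + 1) (by omega) hk2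
      have n3 : ξ k ≠ ξ (k + 1) := fun h4 => by
        have := h.inj _ _ n1 h4; omega
      have c1 : core κ lam ξ k = ξ k := by simp only [core]; rw [if_pos (by omega)]
      have c2 : core κ lam ξ (k + 1) = ξ (k + 1) := by simp only [core]; rw [if_pos (by omega)]
      rw [e1, e2]
      rcases lt_or_gt_of_ne n3 with h4 | h4
      · -- ascent
        rw [act_sw h4]
        have e3 : core κ lam (sw k ξ) = sw k (core κ lam ξ) := by
          funext s
          simp only [core, sw]
          by_cases h5 : s = k
          · subst h5
            rw [if_pos rfl, if_pos rfl, if_pos (by omega), if_pos (by omega)]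
          · by_cases h6 : s = k + 1
            · subst h6
              rw [if_neg h5, if_neg h5, if_pos rfl, if_pos rfl, if_pos (by omega),
                if_pos (by omega)]
            · rw [if_neg h5, if_neg h5, if_neg h6, if_neg h6]
        have hd : Desc (sw k (core κ lam ξ)) k := by
          unfold Desc; rw [sw_l, sw_r, c1, c2]; exact ⟨n2, n1, h4⟩
        have hBd' : Bd W (sw k (core κ lam ξ)) := by
          intro s hs
          by_cases h5 : s = k
          · subst h5
            rw [sw_l]
            have h6 := hBd s (by rw [c1]; exact n1)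
            have h7 := hBd (s + 1) (by rw [c2]; exact n2)
            exact ⟨h6.1, h6.2.1, h7.2.2⟩
          · by_cases h6 : s = k + 1
            · subst h6
              rw [sw_r]
              have h6 := hBd k (by rw [c1]; exact n1)
              have h7 := hBd (k + 1) (by rw [c2]; exact n2)
              exact ⟨h7.1, h7.2.1, h6.2.2⟩
            · rw [sw_o _ _ _ h5 h6] at hs ⊢
              exact hBd s hs
        have e4 := Psi_desc hBd' hd
        rw [sw_l, sw_r, c1, c2, sw_sw] at e4
        have e5 : FF W κ lam (sw k ξ) =
            Finsupp.lmapDomain ℤ ℤ (ov κ lam ξ) (th k (ξ k) (ξ (k + 1)) (Psi W (core κ lam ξ))) := by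
          unfold FF
          rw [e3, e4]
          apply map_congr'
          intro y _
          funext s
          simp only [ov]
          by_cases h5 : s ≤ κ
          · rw [if_pos h5, if_pos h5, sw_o _ _ _ (by omega) (by omega)]
          · rw [if_neg h5, if_neg h5]
            by_cases h6 : s ≤ lam
            · rw [if_pos h6, if_pos h6]
            · rw [if_neg h6, if_neg h6, sw_o _ _ _ (by omega) (by omega)]
        rw [e5, FF_mid ξ hk (by omega), FF_mid ξ (by omega) hk2]
        unfold th
        by_cases h5 : ξ (k + 1) < 0
        · rw [if_pos h5, if_pos (by omega), if_neg (by omega), add_zero, add_sub_cancel]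
        · by_cases h6 : 0 < ξ k
          · rw [if_neg h5, if_pos h6, if_neg (by omega), if_pos (by omega), add_zero,
              add_sub_cancel]
          · rw [if_neg h5, if_neg h6, if_pos (by omega), if_pos (by omega)]
            simp only [LinearMap.sub_apply, LinearMap.add_apply, Module.End.one_apply, map_sub,
              map_add]
            unfold FF
            abel
      · -- descent
        rw [act_id h4.le]
        have hd : Desc (core κ lam ξ) k := by
          unfold Desc; rw [c1, c2]; exact ⟨n1, n2, h4⟩
        have e4 := Psi_desc hBd hd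
        rw [c1, c2] at e4
        by_cases h5 : ξ k < 0
        · rw [if_pos (by omega), if_neg (by omega), add_zero, FF_mid ξ hk (by omega)]
          have e5 : th k (ξ (k + 1)) (ξ k) = P k := by unfold th; rw [if_pos h5]
          rw [e5] at e4
          have e6 : P k (Psi W (core κ lam ξ)) = Psi W (core κ lam ξ) := by
            conv_lhs => rw [e4]
            rw [P_idem_v, ← e4]
          rw [e6]
          unfold FF
          abel
        · by_cases h6 : 0 < ξ (k + 1)
          · rw [if_neg (by omega), if_pos (by omega), add_zero, FF_mid ξ (by omega) hk2]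
            have e5 : th k (ξ (k + 1)) (ξ k) = P (k + 1) := by
              unfold th; rw [if_neg h5, if_pos h6]
            rw [e5] at e4
            have e6 : P (k + 1) (Psi W (core κ lam ξ)) = Psi W (core κ lam ξ) := by
              conv_lhs => rw [e4]
              rw [P_idem_v, ← e4]
            rw [e6]
            unfold FF
            abel
          · rw [if_neg (by omega), if_neg (by omega), add_zero, add_zero]
    · by_cases hk3 : k + 1 = lam
      · -- right emission
        have e1 : nk κ k ξ = κ := by unfold nk; rw [if_neg (by omega)]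
        have e0 : lam - 1 = k := by omega
        rw [e1, hk3, z2]
        by_cases h4 : ξ k < 0
        · have e2 : nl lam k ξ = k := by
            unfold nl; rw [e0, if_pos ⟨hk3, h4⟩]
          rw [e2, if_pos (Or.inl h4), if_neg (by omega), add_zero, add_sub_cancel]
          rw [FF_mid ξ hk (by omega)]
          have c1 : core κ lam ξ (lam - 1) = ξ k := by
            rw [e0]; simp only [core]; rw [if_pos (by omega)]
          have e6 := emitR hBd hCo (by omega) (by rw [c1]; exact h4)
          rw [c1, e0] at e6
          rw [e6]
          have e3 : act k ξ = sw k ξ := act_sw (by rw [hk3, z2]; exact h4)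
          have e4 : core κ k (act k ξ) = Function.update (core κ lam ξ) k 0 := by
            funext s
            rw [e3]
            simp only [core, Function.update_apply]
            by_cases h4 : s = k
            · rw [if_neg (by omega), if_pos h4]
            · rw [if_neg h4]
              by_cases h5 : κ < s ∧ s < lam
              · rw [if_pos (by omega), if_pos h5, sw_o _ _ _ (by omega) (by omega)]
              · rw [if_neg (by omega), if_neg h5]
          unfold FF
          rw [e4]
          unfold addc
          rw [Finsupp.lmapDomain_apply, Finsupp.lmapDomain_apply, Finsupp.lmapDomain_apply,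
            ← Finsupp.mapDomain_comp]
          apply Finsupp.mapDomain_congr
          intro y _
          funext s
          simp only [ov, Function.comp, Function.update_apply]
          rw [e3]
          by_cases h4 : s = lam
          · subst h4
            rw [if_neg (by omega), if_neg (by omega), if_neg (by omega), if_pos le_rfl,
              if_pos rfl, ← hk3, sw_r]
          · by_cases h5 : s ≤ κ
            · rw [if_pos h5, if_pos h5, sw_o _ _ _ (by omega) (by omega)]
            · by_cases h6 : s ≤ k
              · rw [if_neg h5, if_pos h6, if_neg h5, if_pos (by omega), if_neg h4]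
              · rw [if_neg h5, if_neg h6, if_neg h5, if_neg (by omega),
                  sw_o _ _ _ (by omega) (by omega)]
        · have e2 : nl lam k ξ = lam := by unfold nl; rw [e0, if_neg (by tauto)]
          rw [e2, if_neg (by omega), if_neg (by omega), add_zero, add_zero,
            act_id (by rw [hk3, z2]; omega)]
      · -- right part
        have e1 : nk κ k ξ = κ := by unfold nk; rw [if_neg (by omega)]
        have e2 : nl lam k ξ = lam := by unfold nl; rw [if_neg (by omega)]
        have hri := h.ri (k + 1) (by omega)
        rw [e1, e2, if_pos (by omega), if_neg (by omega), add_zero, add_sub_cancel]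
        by_cases h4 : k = lam
        · subst h4
          rw [act_id (by omega)]
          symm
          apply P_map_id
          intro y hy
          apply ov_lam _ _ hlt
          have := lastR hBd hCo (by omega) y hy
          omega
        · have e3 : core κ lam (act k ξ) = core κ lam ξ := by
            funext s
            simp only [core]
            by_cases h3 : κ < s ∧ s < lam
            · rw [if_pos h3, if_pos h3, act_o _ _ _ (by omega) (by omega)]
            · rw [if_neg h3, if_neg h3]
          unfold FF
          rw [e3]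
          have := P_map_of (f := ov κ lam ξ) (g := id) (h := ov κ lam (act k ξ)) (k := k)
            (Psi W (core κ lam ξ)) (fun y _ => ov_right ξ y (by omega) hlt)
          rw [this, Finsupp.lmapDomain_id]
          rfl

end Pool.Agent.Y999.ST
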