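import Pool.Agent.Y999.ST.Stm

/-!
# Interface statements, second part
-/

namespace Pool.Agent.Y999.ST

open MeasureTheory ProbabilityTheory
open scoped ENNReal

/-- Next-ring functional of an array of waiting times. -/
noncomputable def nx (g : ℤ × ℕ → ℝ) : ℤ → ℝ≥0∞ → ℝ≥0∞ :=
  fun k => nxt (fun n => ENNReal.ofReal (g (k, n)))

/-- JOB ONE (a): one step of the clocks. -/
def StONE : Prop := ∀ (s : Finset ℤ) (c : ℤ) (γ : ℝ) (g : ℤ × ℕ → ℝ) (h h' : ℕ → ℕ → Prop)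
  (A : ℤ) (B C : ℕ), c ∈ s → 0 < γ → (∀ p, 0 < g p) →
  (∀ B' < B, ∀ C' < C, A + (B' : ℤ) - (C' : ℤ) ∈ s) →
  (∀ B' < B, ∀ C' < C, (h' (B' + 1) (C' + 1) ↔ (h (B' + 1) (C' + 1) ∨
    (c = A + (B' : ℤ) - (C' : ℤ) ∧ (B' = 0 ∨ h B' (C' + 1)) ∧ (C' = 0 ∨ h (B' + 1) C'))))) →
  ((B = 0 ∨ C = 0 ∨ h B C) → TT (nx (ins s c γ g)) h A B C = 0) ∧
  (¬ (B = 0 ∨ C = 0 ∨ h B C) →
    TT (nx (ins s c γ g)) h A B C = ENNReal.ofReal γ + TT (nx g) h' A B C)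

/-- JOB ONE (b): measurability. -/
def StMEAS : Prop := ∀ (h : ℕ → ℕ → Prop) (A : ℤ) (B C : ℕ),
  Measurable (fun g : ℤ × ℕ → ℝ => TT (nx g) h A B C)

/-- JOB ONE (c): finiteness. -/
def StFIN : Prop := ∀ (h : ℕ → ℕ → Prop) (A : ℤ) (B C : ℕ) (g : ℤ × ℕ → ℝ),
  (∀ p, 0 < g p) → (∀ k (t : ℝ), ∃ n, t < arr (fun i => g (k, i)) n) →
  TT (nx g) h A B C ≠ ⊤

/-- JOB LAW: an abstract comparison principle. -/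
def StLAW : Prop := ∀ (s : Finset ℤ), s.Nonempty → ∀ (I : Type) [Fintype I] (X Y : Type)
  (TX : X → (ℤ × ℕ → ℝ) → I → ℝ≥0∞) (TY : Y → (ℤ × ℕ → ℝ) → I → ℝ≥0∞)
  (mX : ℤ → X → X) (mY : ℤ → Y → Y) (hX : X → I → Prop) (hY : Y → I → Prop)
  (F : X → (Y →₀ ℤ)) (GX : X → Prop) (GY : Y → Prop),
  (∀ x, Measurable (TX x)) → (∀ y, Measurable (TY y)) →
  (∀ x, GX x → ∀ k ∈ s, GX (mX k x)) →
  (∀ x, GX x → ∀ y ∈ (F x).support, GY y) →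
  (∀ x, GX x → ∀ k ∈ s, ∀ γ : ℝ, 0 < γ → ∀ g : ℤ × ℕ → ℝ, (∀ p, 0 < g p) → ∀ i,
    (hX x i → TX x (ins s k γ g) i = 0 ∧ TX (mX k x) g i = 0) ∧
    (¬ hX x i → TX x (ins s k γ g) i = ENNReal.ofReal γ + TX (mX k x) g i)) →
  (∀ y, GY y → ∀ k ∈ s, ∀ γ : ℝ, 0 < γ → ∀ g : ℤ × ℕ → ℝ, (∀ p, 0 < g p) → ∀ i,
    (hY y i → TY y (ins s k γ g) i = 0 ∧ TY (mY k y) g i = 0) ∧
    (¬ hY y i → TY y (ins s k γ g) i = ENNReal.ofReal γ + TY (mY k y) g i)) →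
  (∀ x, GX x → ∑ k ∈ s, F (mX k x) = ∑ k ∈ s, Finsupp.mapDomain (mY k) (F x)) →
  (∀ x, GX x → (F x).sum (fun _ c => c) = 1) →
  (∀ x, GX x → ∀ k ∈ s, (F (mX k x)).sum (fun _ c => |c|) ≤ 5 * (F x).sum (fun _ c => |c|)) →
  (∀ x, GX x → ∀ y ∈ (F x).support, ∀ i, (hY y i ↔ hX x i)) →
  ∀ x, GX x → ∀ y, F x = Finsupp.single y 1 →
    (∀ᵐ g ∂clk, ∀ i, TX x g i ≠ ⊤) → (∀ᵐ g ∂clk, ∀ i, TY y g i ≠ ⊤) →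
    clk.map (TX x) = clk.map (TY y)

end Pool.Agent.Y999.ST
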