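import Pool.Agent.Y999.ST.Tests
import Pool.Agent.Y999.ST.Stm2

/-!
# Equality of the laws of the two vectors of last-passage functionals
-/

namespace Pool.Agent.Y999.ST

open MeasureTheory ProbabilityTheory
open scoped ENNReal

theorem TT_hit {N : ℤ → ℝ≥0∞ → ℝ≥0∞} {h : ℕ → ℕ → Prop} {A : ℤ} {B C : ℕ} (hh : h B C) :
    TT N h A B C = 0 := by
  cases B with
  | zero => simp [TT]
  | succ B =>
    cases C with
    | zero => simp [TT]
    | succ C => simp [TT, hh]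

theorem TT_congr {N : ℤ → ℝ≥0∞ → ℝ≥0∞} {h h' : ℕ → ℕ → Prop} {A : ℤ} (B0 C0 : ℕ)
    (H : ∀ B < B0, ∀ C < C0, (h (B + 1) (C + 1) ↔ h' (B + 1) (C + 1))) :
    ∀ B ≤ B0, ∀ C ≤ C0, TT N h A B C = TT N h' A B C := by
  intro B
  induction B with
  | zero => intro _ C _; simp [TT]
  | succ B ihB =>
    intro hB C
    induction C with
    | zero => intro _; simp [TT]
    | succ C ihC =>
      intro hC
      have e1 := ihB (by omega) (C + 1) hC
      have e2 := ihC (by omega)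
      have e3 := H B (by omega) C (by omega)
      simp only [TT, e1, e2]
      by_cases h3 : h (B + 1) (C + 1)
      · rw [if_pos h3, if_pos (e3.mp h3)]
      · rw [if_neg h3, if_neg (fun h4 => h3 (e3.mpr h4))]

/-- The data of the problem. -/
structure Dat (I : Type) where
  al : ℤ
  L : ℤ
  R : ℤ
  a : ℤ
  b : ℤ
  W : ℤ
  G : I → Prop
  A : I → ℤ
  B : I → ℕ
  C : I → ℕ
  hL : L ≤ al
  hR : al + 1 ≤ R - 1
  B1 : ∀ i, 1 ≤ B i
  C1 : ∀ i, 1 ≤ C i
  g1 : ∀ i, G i → A i ≤ al ∧ L ≤ A i + 1 - C i ∧ R ≤ A i + B i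
  g2 : ∀ i, ¬ G i → al ≤ A i ∧ A i + 1 - C i ≤ L - 1 ∧ A i + B i ≤ R - 1
  aL : a < L
  bR : R ≤ b + 1
  aA : ∀ i, a ≤ A i + 1 - C i
  bA : ∀ i, A i + B i ≤ b
  WL : -W ≤ L - 1
  WR : R ≤ W
  W1 : R - al ≤ W
  W2 : al + 1 - L ≤ W

namespace Dat

variable {I : Type} (D : Dat I)

/-- threshold for labelled particles -/
def t1 (i : I) : ℤ := D.A i - D.al - 1
/-- threshold for big particles -/
def t2 (i : I) : ℤ := D.A i - D.al + 1

open Classical in
/-- hit, first system -/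
def hX (x : ℤ × ℤ × Cfg) (i : I) : Prop :=
  if D.G i then h1 D.b (D.t1 i) (D.A i) x.2.2 (D.B i) (D.C i)
  else h2 D.a (D.t2 i) (D.A i) x.2.2 (D.B i) (D.C i)

open Classical in
/-- hit, second system -/
def hY (y : Cfg) (i : I) : Prop :=
  if D.G i then h1 D.b (D.t1 i) (D.A i) y (D.B i) (D.C i)
  else h2 D.a (D.t2 i) (D.A i + 1) y (D.B i) (D.C i)

open Classical in
/-- passage times, first system -/
noncomputable def TX (x : ℤ × ℤ × Cfg) (g : ℤ × ℕ → ℝ) (i : I) : ℝ≥0∞ :=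
  if D.G i then TT (nx g) (h1 D.b (D.t1 i) (D.A i) x.2.2) (D.A i) (D.B i) (D.C i)
  else TT (nx g) (h2 D.a (D.t2 i) (D.A i) x.2.2) (D.A i) (D.B i) (D.C i)

open Classical in
/-- passage times, second system -/
noncomputable def TY (y : Cfg) (g : ℤ × ℕ → ℝ) (i : I) : ℝ≥0∞ :=
  if D.G i then TT (nx g) (h1 D.b (D.t1 i) (D.A i) y) (D.A i) (D.B i) (D.C i)
  else TT (nx g) (h2 D.a (D.t2 i) (D.A i + 1) y) (D.A i + 1) (D.B i) (D.C i)

/-- moves of the first system -/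
noncomputable def mX (k : ℤ) (x : ℤ × ℤ × Cfg) : ℤ × ℤ × Cfg :=
  (nk x.1 k x.2.2, nl x.2.1 k x.2.2, act k x.2.2)

/-- moves of the second system -/
def mY (k : ℤ) (y : Cfg) : Cfg := if k = D.a then y else act k y

/-- the intertwiner -/
noncomputable def F (x : ℤ × ℤ × Cfg) : Cfg →₀ ℤ := FF D.W x.1 x.2.1 x.2.2

/-- good states of the second system -/
structure GY (y : Cfg) : Prop where
  j1 : ∀ i, D.G i → inv1 D.b (D.t1 i) (D.A i) (D.C i) y
  j2 : ∀ i, ¬ D.G i → inv2 D.a (D.t2 i) (D.A i + 1) (D.B i) y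

/-- good states of the first system -/
structure GX (x : ℤ × ℤ × Cfg) : Prop where
  xt : XT D.W x.1 x.2.1 x.2.2
  ha : D.a ≤ x.1
  hb : x.2.1 ≤ D.b + 1
  z : x.2.2 (D.a - 1) = 0
  cl : cntL D.a D.L x.1 x.2.2
  cr : cntR D.b D.R x.2.1 x.2.2
  i1 : ∀ i, D.G i → inv1 D.b (D.t1 i) (D.A i) (D.C i) x.2.2
  i2 : ∀ i, ¬ D.G i → inv2 D.a (D.t2 i) (D.A i) (D.B i) x.2.2
  gy : ∀ y ∈ (D.F x).support, D.GY y

theorem GX_step (x : ℤ × ℤ × Cfg) (h : D.GX x) (k : ℤ) (hk : k ∈ Finset.Icc D.a D.b) :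
    D.GX (mX k x) := by
  rw [Finset.mem_Icc] at hk
  refine ⟨XT_step h.xt k, ?_, ?_, ?_, cntL_step h.xt h.cl (by have := h.ha; omega) hk.1,
    cntR_step h.xt h.cr h.hb hk.2, fun i hi => inv1_act (h.i1 i hi) hk.2,
    fun i hi => inv2_act (h.i2 i hi) hk.1, ?_⟩
  · show D.a ≤ nk x.1 k x.2.2
    have := h.ha
    unfold nk; split_ifs <;> omega
  · show nl x.2.1 k x.2.2 ≤ D.b + 1
    have := h.hb
    unfold nl; split_ifs <;> omega
  · show act k x.2.2 (D.a - 1) = 0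
    rw [act_o _ _ _ (by omega) (by omega)]
    exact h.z
  · intro y hy
    obtain ⟨y', hy', h1 | h1 | ⟨h1, h2⟩⟩ := supp_step h.xt k hy
    · rw [h1]; exact h.gy y' hy'
    · rw [h1]
      have h3 := h.gy y' hy'
      exact ⟨fun i hi => inv1_act (h3.j1 i hi) hk.2, fun i hi => inv2_act (h3.j2 i hi) hk.1⟩
    · rw [h1]
      have h3 := h.gy y' hy'
      have h4 := h.hb
      exact ⟨fun i hi => inv1_act (h3.j1 i hi) (by omega),
        fun i hi => inv2_act (h3.j2 i hi) (by omega)⟩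

theorem h1_mono {b θ A : ℤ} {y : Cfg} {B C : ℕ} {c : ℤ} (hc : c ≤ b) (h : h1 b θ A y B C) :
    h1 b θ A (act c y) B C := le_trans h (Hc_mono_act hc y)

theorem h2_mono {a θ A : ℤ} {y : Cfg} {B C : ℕ} {c : ℤ} (hc : a ≤ c) (h : h2 a θ A y B C) :
    h2 a θ A (act c y) B C := le_trans h (Jc_mono_act hc y)

/-- One step of one coordinate, first kind. -/
theorem step1 (one : StONE) {y : Cfg} {i : I} (hinv : inv1 D.b (D.t1 i) (D.A i) (D.C i) y)
    {k : ℤ} (hk : k ∈ Finset.Icc D.a D.b) {γ : ℝ} (hγ : 0 < γ) {g : ℤ × ℕ → ℝ}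
    (hg : ∀ p, 0 < g p) :
    (h1 D.b (D.t1 i) (D.A i) y (D.B i) (D.C i) →
      TT (nx (ins (Finset.Icc D.a D.b) k γ g)) (h1 D.b (D.t1 i) (D.A i) y) (D.A i) (D.B i) (D.C i)
        = 0 ∧
      TT (nx g) (h1 D.b (D.t1 i) (D.A i) (act k y)) (D.A i) (D.B i) (D.C i) = 0) ∧
    (¬ h1 D.b (D.t1 i) (D.A i) y (D.B i) (D.C i) →
      TT (nx (ins (Finset.Icc D.a D.b) k γ g)) (h1 D.b (D.t1 i) (D.A i) y) (D.A i) (D.B i) (D.C i)
        = ENNReal.ofReal γ +
      TT (nx g) (h1 D.b (D.t1 i) (D.A i) (act k y)) (D.A i) (D.B i) (D.C i)) := by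
  have hk' := Finset.mem_Icc.mp hk
  have ha := D.aA i
  have hb := D.bA i
  have hB := D.B1 i
  have hC := D.C1 i
  have := one (Finset.Icc D.a D.b) k γ g (h1 D.b (D.t1 i) (D.A i) y)
    (h1 D.b (D.t1 i) (D.A i) (act k y)) (D.A i) (D.B i) (D.C i) hk hγ hg
    (fun B' hB' C' hC' => by rw [Finset.mem_Icc]; omega)
    (fun B' hB' C' hC' => h1_step hk'.2 (fun C'' hC'' => hinv C'' (by omega)) (by omega))
  constructor
  · intro hh
    exact ⟨this.1 (Or.inr (Or.inr hh)), TT_hit (h1_mono hk'.2 hh)⟩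
  · intro hh
    apply this.2
    rintro (h3 | h3 | h3)
    · omega
    · omega
    · exact hh h3

/-- One step of one coordinate, second kind (with a general base `A`). -/
theorem step2 (one : StONE) {y : Cfg} {i : I} {A : ℤ} (hA : D.A i ≤ A) (hA' : A ≤ D.A i + 1)
    (hinv : inv2 D.a (D.t2 i) A (D.B i) y) (hnG : ¬ D.G i)
    {k : ℤ} (hk : k ∈ Finset.Icc D.a D.b) {γ : ℝ} (hγ : 0 < γ) {g : ℤ × ℕ → ℝ}
    (hg : ∀ p, 0 < g p) :
    (h2 D.a (D.t2 i) A y (D.B i) (D.C i) →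
      TT (nx (ins (Finset.Icc D.a D.b) k γ g)) (h2 D.a (D.t2 i) A y) A (D.B i) (D.C i)
        = 0 ∧
      TT (nx g) (h2 D.a (D.t2 i) A (act k y)) A (D.B i) (D.C i) = 0) ∧
    (¬ h2 D.a (D.t2 i) A y (D.B i) (D.C i) →
      TT (nx (ins (Finset.Icc D.a D.b) k γ g)) (h2 D.a (D.t2 i) A y) A (D.B i) (D.C i)
        = ENNReal.ofReal γ +
      TT (nx g) (h2 D.a (D.t2 i) A (act k y)) A (D.B i) (D.C i)) := by
  have hk' := Finset.mem_Icc.mp hk
  have ha := D.aA i
  have hb := D.bA i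
  have hB := D.B1 i
  have hC := D.C1 i
  have h2' := D.g2 i hnG
  have hbR := D.bR
  have := one (Finset.Icc D.a D.b) k γ g (h2 D.a (D.t2 i) A y)
    (h2 D.a (D.t2 i) A (act k y)) A (D.B i) (D.C i) hk hγ hg
    (fun B' hB' C' hC' => by rw [Finset.mem_Icc]; omega)
    (fun B' hB' C' hC' => h2_step hk'.1 (fun C'' hC'' => hinv C'' (by omega)) (by omega))
  constructor
  · intro hh
    exact ⟨this.1 (Or.inr (Or.inr hh)), TT_hit (h2_mono hk'.1 hh)⟩
  · intro hh
    apply this.2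
    rintro (h3 | h3 | h3)
    · omega
    · omega
    · exact hh h3

/-- One step where the ringing edge is not used. -/
theorem step0 (one : StONE) {h : ℕ → ℕ → Prop} {i : I} {A : ℤ}
    (hA : D.a < A + 1 - D.C i) (hA' : A + D.B i ≤ D.b + 1) {γ : ℝ} (hγ : 0 < γ)
    {g : ℤ × ℕ → ℝ} (hg : ∀ p, 0 < g p) (hab : D.a ≤ D.b) :
    (h (D.B i) (D.C i) →
      TT (nx (ins (Finset.Icc D.a D.b) D.a γ g)) h A (D.B i) (D.C i) = 0 ∧
      TT (nx g) h A (D.B i) (D.C i) = 0) ∧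
    (¬ h (D.B i) (D.C i) →
      TT (nx (ins (Finset.Icc D.a D.b) D.a γ g)) h A (D.B i) (D.C i) = ENNReal.ofReal γ +
      TT (nx g) h A (D.B i) (D.C i)) := by
  have hB := D.B1 i
  have hC := D.C1 i
  have := one (Finset.Icc D.a D.b) D.a γ g h h A (D.B i) (D.C i)
    (by rw [Finset.mem_Icc]; omega) hγ hg
    (fun B' hB' C' hC' => by rw [Finset.mem_Icc]; omega)
    (fun B' hB' C' hC' => by
      constructor
      · exact fun h3 => Or.inl h3
      · rintro (h3 | ⟨h3, -⟩)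
        · exact h3
        · omega)
  constructor
  · intro hh
    exact ⟨this.1 (Or.inr (Or.inr hh)), TT_hit hh⟩
  · intro hh
    apply this.2
    rintro (h3 | h3 | h3)
    · omega
    · omega
    · exact hh h3

theorem stepX (one : StONE) (x : ℤ × ℤ × Cfg) (hx : D.GX x) (k : ℤ)
    (hk : k ∈ Finset.Icc D.a D.b) (γ : ℝ) (hγ : 0 < γ) (g : ℤ × ℕ → ℝ) (hg : ∀ p, 0 < g p)
    (i : I) :
    (D.hX x i → D.TX x (ins (Finset.Icc D.a D.b) k γ g) i = 0 ∧ D.TX (mX k x) g i = 0) ∧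
    (¬ D.hX x i → D.TX x (ins (Finset.Icc D.a D.b) k γ g) i =
      ENNReal.ofReal γ + D.TX (mX k x) g i) := by
  unfold TX hX
  by_cases hG : D.G i
  · simp only [if_pos hG]
    exact D.step1 one (hx.i1 i hG) hk hγ hg
  · simp only [if_neg hG]
    exact D.step2 one le_rfl (by omega) (hx.i2 i hG) hG hk hγ hg

theorem stepY (one : StONE) (y : Cfg) (hy : D.GY y) (k : ℤ)
    (hk : k ∈ Finset.Icc D.a D.b) (γ : ℝ) (hγ : 0 < γ) (g : ℤ × ℕ → ℝ) (hg : ∀ p, 0 < g p)
    (i : I) :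
    (D.hY y i → D.TY y (ins (Finset.Icc D.a D.b) k γ g) i = 0 ∧ D.TY (D.mY k y) g i = 0) ∧
    (¬ D.hY y i → D.TY y (ins (Finset.Icc D.a D.b) k γ g) i =
      ENNReal.ofReal γ + D.TY (D.mY k y) g i) := by
  have hk' := Finset.mem_Icc.mp hk
  have hbR := D.bR
  have haL := D.aL
  have ha := D.aA i
  have hb := D.bA i
  unfold TY hY
  by_cases hG : D.G i
  · have h3 := D.g1 i hG
    simp only [if_pos hG]
    by_cases hka : k = D.a
    · have e : D.mY k y = y := by unfold mY; rw [if_pos hka]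
      rw [e, hka]
      exact D.step0 one (by omega) (by omega) hγ hg (by omega)
    · have e : D.mY k y = act k y := by unfold mY; rw [if_neg hka]
      rw [e]
      exact D.step1 one (hy.j1 i hG) hk hγ hg
  · have h3 := D.g2 i hG
    simp only [if_neg hG]
    by_cases hka : k = D.a
    · have e : D.mY k y = y := by unfold mY; rw [if_pos hka]
      rw [e, hka]
      exact D.step0 one (by omega) (by omega) hγ hg (by omega)
    · have e : D.mY k y = act k y := by unfold mY; rw [if_neg hka]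
      rw [e]
      exact D.step2 one (by omega) le_rfl (hy.j2 i hG) hG hk hγ hg

theorem inter (x : ℤ × ℤ × Cfg) (hx : D.GX x) :
    ∑ k ∈ Finset.Icc D.a D.b, D.F (mX k x) =
      ∑ k ∈ Finset.Icc D.a D.b, Finsupp.mapDomain (D.mY k) (D.F x) := by
  have h1 := sum_id hx.xt hx.ha hx.hb
  unfold F mX
  rw [h1]
  apply Finset.sum_congr rfl
  intro k _
  by_cases hka : k = D.a
  · have e : D.mY k = id := by funext y; unfold mY; rw [if_pos hka]; rfl
    rw [if_pos hka, e, Finsupp.mapDomain_id]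
  · have e : D.mY k = act k := by funext y; unfold mY; rw [if_neg hka]
    rw [if_neg hka, e]
    rfl

theorem hits (x : ℤ × ℤ × Cfg) (hx : D.GX x) (y : Cfg) (hy : y ∈ (D.F x).support) (i : I) :
    D.hY y i ↔ D.hX x i := by
  unfold hX hY
  by_cases hG : D.G i
  · have h3 := D.g1 i hG
    rw [if_pos hG, if_pos hG]
    exact test1 hx.xt hx.cr hx.hb hy (by unfold t1; omega) h3.2.2
  · have h3 := D.g2 i hG
    rw [if_neg hG, if_neg hG]
    exact test2 hx.xt hx.z hx.cl hx.ha hy (by unfold t2; omega) h3.2.1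

/-! ### Initial states -/

/-- The initial state of the first system. -/
def X0 : Cfg := fun s => if D.L ≤ s ∧ s ≤ D.al then s - D.al - 1
  else if D.al + 1 ≤ s ∧ s ≤ D.R - 1 then s - D.al else 0

/-- The initial state of the second system. -/
def Y0 : Cfg := fun s => if D.L ≤ s ∧ s ≤ D.al then s - D.al - 1
  else if D.al + 2 ≤ s ∧ s ≤ D.R then s - 1 - D.al else 0

theorem XT0 : XT D.W (D.L - 1) D.R D.X0 := by
  have hL := D.hL
  have hR := D.hR
  have w1 := D.WL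
  have w2 := D.WR
  have w3 := D.W1
  have w4 := D.W2
  refine ⟨by omega, ?_, ?_, ?_, ?_, ?_, ?_, ?_, w1, w2⟩
  · simp only [X0]; split_ifs <;> omega
  · simp only [X0]; split_ifs <;> omega
  · intro s hs; simp only [X0]; split_ifs <;> omega
  · intro s hs; simp only [X0]; split_ifs <;> omega
  · intro s hs1 hs2; simp only [X0]; split_ifs <;> omega
  · intro s t hs hst
    simp only [X0] at hs hst
    split_ifs at hs hst <;> omega
  · intro s
    simp only [X0]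
    rw [abs_le]
    split_ifs <;> omega

theorem FX0 : D.F (D.L - 1, D.R, D.X0) = Finsupp.single D.Y0 1 := by
  have hL := D.hL
  have hR := D.hR
  unfold F FF
  have e1 : core (D.L - 1) D.R D.X0 = D.X0 := by
    funext s
    simp only [core, X0]
    split_ifs <;> omega
  have e2 : ∀ k, ¬ Desc D.X0 k := by
    intro k hk
    unfold Desc at hk
    simp only [X0] at hk
    split_ifs at hk <;> omega
  show Finsupp.lmapDomain ℤ ℤ (ov (D.L - 1) D.R D.X0) (Psi D.W (core (D.L - 1) D.R D.X0)) = _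
  rw [e1, Psi_base e2, Finsupp.lmapDomain_apply, Finsupp.mapDomain_single]
  congr 1
  funext s
  simp only [ov, up, X0, Y0]
  split_ifs <;> omega

end Dat

end Pool.Agent.Y999.ST
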