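import Pool.Agent.Y999.ST.Main1

/-!
# Initial states and the law identity for independent exponential clocks
-/

namespace Pool.Agent.Y999.ST

open MeasureTheory ProbabilityTheory
open scoped ENNReal

theorem Hc_lower {b θ k m : ℤ} {y : Cfg} (hk : k ≤ m) (hm : m ≤ b + 1)
    (h : ∀ s, k < s → s ≤ m → y s ≤ θ) : m - k ≤ Hc b θ k y := by
  induction m, hk using Int.leInduction with
  | base => have := Hc_nonneg b θ k y; omega
  | succ m hm' ih =>
    clear ih
    have key : ∀ j : ℕ, ∀ k', k' = m + 1 - j → k ≤ k' → (j : ℤ) ≤ Hc b θ k' y := by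
      intro j
      induction j with
      | zero => intro k' _ _; exact_mod_cast Hc_nonneg b θ k' y
      | succ j ih =>
        intro k' hk' hkk
        have h1 := ih (k' + 1) (by push_cast at hk'; omega) (by omega)
        have h2 := Hc_pred (b := b) (θ := θ) (k := k' + 1) (by push_cast at hk'; omega) y
        have e0 : k' + 1 - 1 = k' := by ring
        rw [e0, if_pos (h (k' + 1) (by omega) (by push_cast at hk'; omega))] at h2
        push_cast
        omega
    have := key (m + 1 - k).toNat k (by omega) le_rfl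
    omega

theorem Hc_upper {b θ k m : ℤ} {y : Cfg} (hk : k ≤ b + 1)
    (h : ∀ s, m < s → θ < y s) : Hc b θ k y ≤ max (m - k) 0 := by
  by_cases hm : k ≤ m
  · by_cases hmb : m ≤ b + 1
    · have h1 := Hc_lip (b := b) (θ := θ) hm hmb y
      have h2 : Hc b θ m y = 0 := by
        unfold Hc
        apply Finset.sum_eq_zero
        intro s hs
        rw [Finset.mem_Ioc] at hs
        have := h s hs.1
        rw [if_neg (by omega)]
      omega
    · have h1 := Hc_lip (b := b) (θ := θ) hk le_rfl y
      have h2 : Hc b θ (b + 1) y = 0 := by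
        unfold Hc
        simp
      omega
  · have h2 : Hc b θ k y = 0 := by
      unfold Hc
      apply Finset.sum_eq_zero
      intro s hs
      rw [Finset.mem_Ioc] at hs
      have := h s (by omega)
      rw [if_neg (by omega)]
    omega

theorem Jc_lower {a θ k m : ℤ} {y : Cfg} (hk : m ≤ k + 1) (hm : a ≤ m)
    (h : ∀ s, m ≤ s → s ≤ k → θ ≤ y s) : k + 1 - m ≤ Jc a θ k y := by
  have key : ∀ j : ℕ, ∀ k', k' = m - 1 + j → k' ≤ k → (j : ℤ) ≤ Jc a θ k' y := by
    intro j
    induction j with
    | zero => intro k' _ _; exact_mod_cast Jc_nonneg a θ k' y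
    | succ j ih =>
      intro k' hk' hkk
      have h1 := ih (k' - 1) (by push_cast at hk'; omega) (by omega)
      have h2 := Jc_succ (a := a) (θ := θ) (k := k' - 1) (by push_cast at hk'; omega) y
      have e0 : k' - 1 + 1 = k' := by ring
      rw [e0, if_pos (h k' (by push_cast at hk'; omega) hkk)] at h2
      push_cast
      omega
  have := key (k + 1 - m).toNat k (by omega) le_rfl
  omega

theorem Jc_upper {a θ k m : ℤ} {y : Cfg} (hk : a ≤ k + 1)
    (h : ∀ s, s < m → y s < θ) : Jc a θ k y ≤ max (k + 1 - m) 0 := by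
  by_cases hm : m ≤ k + 1
  · by_cases hmb : a ≤ m
    · have h1 := Jc_lip (a := a) (θ := θ) (k := k) (m := m - 1) (by omega) (by omega) y
      have h2 : Jc a θ (m - 1) y = 0 := by
        unfold Jc
        apply Finset.sum_eq_zero
        intro s hs
        rw [Finset.mem_Icc] at hs
        have := h s (by omega)
        rw [if_neg (by omega)]
      omega
    · have h1 := Jc_lip (a := a) (θ := θ) (k := k) (m := a - 1) (by omega) (by omega) y
      have h2 : Jc a θ (a - 1) y = 0 := by
        unfold Jc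
        simp
      omega
  · have h2 : Jc a θ k y = 0 := by
      unfold Jc
      apply Finset.sum_eq_zero
      intro s hs
      rw [Finset.mem_Icc] at hs
      have := h s (by omega)
      rw [if_neg (by omega)]
    omega

namespace Dat

variable {I : Type} (D : Dat I)

theorem GY0 : D.GY D.Y0 := by
  have hL := D.hL
  have hR := D.hR
  have hbR := D.bR
  have haL := D.aL
  constructor
  · intro i hi C' hC'
    have h3 := D.g1 i hi
    have := Hc_lower (b := D.b) (θ := D.t1 i) (k := D.A i - C') (m := D.A i) (y := D.Y0)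
      (by omega) (by omega) (by
        intro s hs1 hs2
        simp only [Y0, t1]
        split_ifs <;> omega)
    omega
  · intro i hi B' hB'
    have h3 := D.g2 i hi
    have ha := D.aA i
    have hC := D.C1 i
    have := Jc_lower (a := D.a) (θ := D.t2 i) (k := D.A i + 1 + B') (m := D.A i + 2) (y := D.Y0)
      (by omega) (by omega) (by
        intro s hs1 hs2
        simp only [Y0, t2]
        split_ifs <;> omega)
    omega

theorem GX0 : D.GX (D.L - 1, D.R, D.X0) := by
  have hL := D.hL
  have hR := D.hR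
  have hbR := D.bR
  have haL := D.aL
  refine ⟨D.XT0, by show D.a ≤ D.L - 1; omega, hbR, ?_, ?_, ?_, ?_, ?_, ?_⟩
  · show D.X0 (D.a - 1) = 0
    simp only [X0]; split_ifs <;> omega
  · show Jc D.a 1 (D.L - 1) D.X0 = D.L - 1 - (D.L - 1)
    rw [sub_self]
    unfold Jc
    apply Finset.sum_eq_zero
    intro s hs
    rw [Finset.mem_Icc] at hs
    rw [if_neg]
    simp only [X0]
    split_ifs <;> omega
  · show Hc D.b (-1) (D.R - 1) D.X0 = D.R - D.R
    rw [sub_self]
    unfold Hc
    apply Finset.sum_eq_zero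
    intro s hs
    rw [Finset.mem_Ioc] at hs
    rw [if_neg]
    simp only [X0]
    split_ifs <;> omega
  · intro i hi C' hC'
    have h3 := D.g1 i hi
    have := Hc_lower (b := D.b) (θ := D.t1 i) (k := D.A i - C') (m := D.A i) (y := D.X0)
      (by omega) (by omega) (by
        intro s hs1 hs2
        simp only [X0, t1]
        split_ifs <;> omega)
    show (C' : ℤ) ≤ Hc D.b (D.t1 i) (D.A i - C') D.X0
    omega
  · intro i hi B' hB'
    have h3 := D.g2 i hi
    have ha := D.aA i
    have hC := D.C1 i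
    have := Jc_lower (a := D.a) (θ := D.t2 i) (k := D.A i + B') (m := D.A i + 1) (y := D.X0)
      (by omega) (by omega) (by
        intro s hs1 hs2
        simp only [X0, t2]
        split_ifs <;> omega)
    show (B' : ℤ) ≤ Jc D.a (D.t2 i) (D.A i + B') D.X0
    omega
  · intro y hy
    rw [D.FX0] at hy
    have := Finsupp.support_single_subset hy
    rw [Finset.mem_singleton] at this
    rw [this]
    exact D.GY0

theorem TX0 (g : ℤ × ℕ → ℝ) (i : I) : D.TX (D.L - 1, D.R, D.X0) g i =
    TT (nx g) (fun _ _ => False) (D.A i) (D.B i) (D.C i) := by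
  have hL := D.hL
  have hR := D.hR
  have hbR := D.bR
  have haL := D.aL
  have ha := D.aA i
  have hb := D.bA i
  unfold TX
  by_cases hG : D.G i
  · have h3 := D.g1 i hG
    rw [if_pos hG]
    refine TT_congr (D.B i) (D.C i) (fun B' hB' C' hC' => ?_) _ le_rfl _ le_rfl
    have := Hc_upper (b := D.b) (θ := D.t1 i) (k := D.A i + B' - C') (m := D.A i) (y := D.X0)
      (by omega) (by
        intro s hs
        simp only [X0, t1]
        split_ifs <;> omega)
    have e1 : D.A i + ((B' + 1 : ℕ) : ℤ) - ((C' + 1 : ℕ) : ℤ) = D.A i + B' - C' := by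
      push_cast; ring
    simp only [h1, iff_false]
    show ¬ (((C' + 1 : ℕ) : ℤ) ≤ Hc D.b (D.t1 i) (D.A i + ((B' + 1 : ℕ) : ℤ) - ((C' + 1 : ℕ) : ℤ)) D.X0)
    rw [e1]
    push_cast
    omega
  · have h3 := D.g2 i hG
    rw [if_neg hG]
    refine TT_congr (D.B i) (D.C i) (fun B' hB' C' hC' => ?_) _ le_rfl _ le_rfl
    have := Jc_upper (a := D.a) (θ := D.t2 i) (k := D.A i + B' - C') (m := D.A i + 1) (y := D.X0)
      (by omega) (by
        intro s hs
        simp only [X0, t2]
        split_ifs <;> omega)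
    have e1 : D.A i + ((B' + 1 : ℕ) : ℤ) - ((C' + 1 : ℕ) : ℤ) = D.A i + B' - C' := by
      push_cast; ring
    simp only [h2, iff_false]
    show ¬ (((B' + 1 : ℕ) : ℤ) ≤ Jc D.a (D.t2 i) (D.A i + ((B' + 1 : ℕ) : ℤ) - ((C' + 1 : ℕ) : ℤ)) D.X0)
    rw [e1]
    push_cast
    omega

open Classical in
theorem TY0 (g : ℤ × ℕ → ℝ) (i : I) : D.TY D.Y0 g i =
    TT (nx g) (fun _ _ => False) (if D.G i then D.A i else D.A i + 1) (D.B i) (D.C i) := by
  have hL := D.hL
  have hR := D.hR
  have hbR := D.bR
  have haL := D.aL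
  have ha := D.aA i
  have hb := D.bA i
  unfold TY
  by_cases hG : D.G i
  · have h3 := D.g1 i hG
    rw [if_pos hG, if_pos hG]
    refine TT_congr (D.B i) (D.C i) (fun B' hB' C' hC' => ?_) _ le_rfl _ le_rfl
    have := Hc_upper (b := D.b) (θ := D.t1 i) (k := D.A i + B' - C') (m := D.A i) (y := D.Y0)
      (by omega) (by
        intro s hs
        simp only [Y0, t1]
        split_ifs <;> omega)
    have e1 : D.A i + ((B' + 1 : ℕ) : ℤ) - ((C' + 1 : ℕ) : ℤ) = D.A i + B' - C' := by
      push_cast; ring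
    simp only [h1, iff_false]
    show ¬ (((C' + 1 : ℕ) : ℤ) ≤ Hc D.b (D.t1 i) (D.A i + ((B' + 1 : ℕ) : ℤ) - ((C' + 1 : ℕ) : ℤ)) D.Y0)
    rw [e1]
    push_cast
    omega
  · have h3 := D.g2 i hG
    rw [if_neg hG, if_neg hG]
    refine TT_congr (D.B i) (D.C i) (fun B' hB' C' hC' => ?_) _ le_rfl _ le_rfl
    have := Jc_upper (a := D.a) (θ := D.t2 i) (k := D.A i + 1 + B' - C') (m := D.A i + 2)
      (y := D.Y0) (by omega) (by
        intro s hs
        simp only [Y0, t2]
        split_ifs <;> omega)
    have e1 : D.A i + 1 + ((B' + 1 : ℕ) : ℤ) - ((C' + 1 : ℕ) : ℤ) = D.A i + 1 + B' - C' := by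
      push_cast; ring
    simp only [h2, iff_false]
    show ¬ (((B' + 1 : ℕ) : ℤ) ≤ Jc D.a (D.t2 i) (D.A i + 1 + ((B' + 1 : ℕ) : ℤ) - ((C' + 1 : ℕ) : ℤ)) D.Y0)
    rw [e1]
    push_cast
    omega

open Classical in
/-- The law identity for independent exponential clocks. -/
theorem law_clk [Fintype I] (one : StONE) (meas : StMEAS) (fin : StFIN) (law : StLAW)
    (good : ∀ᵐ g ∂clk, (∀ p, 0 < g p) ∧ ∀ k (t : ℝ), ∃ n, t < arr (fun i => g (k, i)) n) :
    clk.map (fun g i => TT (nx g) (fun _ _ => False) (D.A i) (D.B i) (D.C i)) =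
    clk.map (fun g i => TT (nx g) (fun _ _ => False) (if D.G i then D.A i else D.A i + 1)
      (D.B i) (D.C i)) := by
  have hL := D.hL
  have hR := D.hR
  have hbR := D.bR
  have haL := D.aL
  have key := law (Finset.Icc D.a D.b) ⟨D.a, by rw [Finset.mem_Icc]; omega⟩ I (ℤ × ℤ × Cfg) Cfg
    D.TX D.TY mX D.mY D.hX D.hY D.F D.GX D.GY
    (fun x => by
      rw [measurable_pi_iff]
      intro i
      unfold TX
      by_cases hG : D.G i
      · simp only [if_pos hG]; exact meas _ _ _ _
      · simp only [if_neg hG]; exact meas _ _ _ _)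
    (fun y => by
      rw [measurable_pi_iff]
      intro i
      unfold TY
      by_cases hG : D.G i
      · simp only [if_pos hG]; exact meas _ _ _ _
      · simp only [if_neg hG]; exact meas _ _ _ _)
    (fun x hx k hk => D.GX_step x hx k hk)
    (fun x hx y hy => hx.gy y hy)
    (fun x hx k hk γ hγ g hg i => D.stepX one x hx k hk γ hγ g hg i)
    (fun y hy k hk γ hγ g hg i => D.stepY one y hy k hk γ hγ g hg i)
    (fun x hx => D.inter x hx)
    (fun x hx => tot_FF hx.xt)
    (fun x hx k _ => nrm_step hx.xt k)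
    (fun x hx y hy i => D.hits x hx y hy i)
    (D.L - 1, D.R, D.X0) D.GX0 D.Y0 D.FX0
    (by
      filter_upwards [good] with g hg i
      rw [D.TX0]
      exact fin _ _ _ _ g hg.1 hg.2)
    (by
      filter_upwards [good] with g hg i
      rw [D.TY0]
      exact fin _ _ _ _ g hg.1 hg.2)
  have e1 : D.TX (D.L - 1, D.R, D.X0) =
      (fun g i => TT (nx g) (fun _ _ => False) (D.A i) (D.B i) (D.C i)) := by
    funext g i; exact D.TX0 g i
  have e2 : D.TY D.Y0 = (fun g i => TT (nx g) (fun _ _ => False)
      (if D.G i then D.A i else D.A i + 1) (D.B i) (D.C i)) := by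
    funext g i; exact D.TY0 g i
  rw [e1, e2] at key
  exact key

end Dat

end Pool.Agent.Y999.ST
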