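import Pool.Agent.Y999.ST.Main2
import Pool.Agent.Y285.ST.Path
import Pool.Agent.Y496.ST.GoodAE
import Pool.Agent.Y710.ST.Ex
import Pool.Agent.Y974.ST.One
import Pool.Agent.Y31.ST.Sup

/-!
# Assembly
-/

namespace Pool.Agent.Y999.ST

open MeasureTheory ProbabilityTheory
open scoped ENNReal

/-- `(P, gap, ζ)` is a colored TASEP on `ℤ` started from the packed configuration: the waiting
times `gap k n` (`k` an edge, `n = 0, 1, …`) of the clocks are independent and exponentially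
distributed with rate `1` (so each edge has an independent rate-`1` Poisson clock), and almost
surely `ζ ω` is a trajectory of the colored TASEP driven by these clocks. -/
structure IsTASEP {Ω : Type*} [MeasurableSpace Ω] (P : Measure Ω) (gap : ℤ → ℕ → Ω → ℝ)
    (ζ : Ω → ℝ → ℤ → ℤ) : Prop where
  prob : IsProbabilityMeasure P
  meas : ∀ k n, Measurable (gap k n)
  law : ∀ k n, P.map (gap k n) = expMeasure 1
  indep : iIndepFun (fun p : ℤ × ℕ => gap p.1 p.2) P
  traj : ∀ᵐ ω ∂P, IsColoredTASEP (fun k => rings (fun n => gap k n ω)) (ζ ω)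

instance : IsProbabilityMeasure (expMeasure 1) := isProbabilityMeasure_expMeasure one_pos

theorem exists_TASEP : ∃ (Ω : Type) (_ : MeasurableSpace Ω) (P : Measure Ω)
    (gap : ℤ → ℕ → Ω → ℝ) (ζ : Ω → ℝ → ℤ → ℤ), IsTASEP P gap ζ := by
  classical
  obtain ⟨Ω, m, P, X, hm, hl, hi, hP⟩ := exists_iid (ℤ × ℕ) (expMeasure 1)
  have hg := Pool.Agent.Y496.ST.goodAE P (fun k n => X (k, n)) (fun k n => hm (k, n))
    (fun k n => (hl (k, n)).map_eq) hi
  refine ⟨Ω, m, P, fun k n => X (k, n), fun ω => if h : GoodClocks (fun k n => X (k, n) ω) then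
    (Pool.Agent.Y710.ST.ex _ h).choose else fun _ x => x, hP, fun k n => hm (k, n),
    fun k n => (hl (k, n)).map_eq, hi, ?_⟩
  filter_upwards [hg] with ω h
  rw [dif_pos h]
  exact (Pool.Agent.Y710.ST.ex _ h).choose_spec

theorem good_clk : ∀ᵐ g ∂clk, (∀ p, 0 < g p) ∧
    ∀ k (t : ℝ), ∃ n, t < arr (fun i => g (k, i)) n := by
  have h1 : iIndepFun (fun (p : ℤ × ℕ) (g : ℤ × ℕ → ℝ) => g (p.1, p.2)) clk := by
    have := iIndepFun_infinitePi (ι := ℤ × ℕ) (Ω := fun _ => ℝ) (𝓧 := fun _ => ℝ)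
      (P := fun _ => expMeasure 1) (X := fun _ x => x) (fun _ => measurable_id)
    exact this
  have hP : IsProbabilityMeasure clk := by unfold clk; infer_instance
  have h2 := Pool.Agent.Y496.ST.goodAE clk (fun k n g => g (k, n))
    (fun k n => measurable_pi_apply _)
    (fun k n => (measurePreserving_eval_infinitePi (fun _ : ℤ × ℕ => expMeasure 1) (k, n)).map_eq)
    h1
  filter_upwards [h2] with g hg
  exact ⟨fun p => hg.pos p.1 p.2, fun k t => hg.unb k t⟩

/-- Consequences of the order. -/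
theorem RLe_iff {A A' : ℤ} {B C B' C' : ℕ} (hB : 1 ≤ B) (hC : 1 ≤ C) (hB' : 1 ≤ B')
    (hC' : 1 ≤ C') (h : RLe (rect A B C) (rect A' B' C')) :
    A ≤ A' ∧ A' + B' ≤ A + B ∧ A' + 1 - C' ≤ A + 1 - C := by
  obtain ⟨h1, h2⟩ := h
  have p1 : (1 + A' : ℤ) ∈ Prod.fst '' rect A B C := h1 ⟨(1 + A', 1 - A'), by
    simp only [rect, Set.mem_prod, Set.mem_Icc]; omega, rfl⟩
  have p2 : (B' + A' : ℤ) ∈ Prod.fst '' rect A B C := h1 ⟨(B' + A', 1 - A'), by
    simp only [rect, Set.mem_prod, Set.mem_Icc]; omega, rfl⟩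
  have p3 : (C - A : ℤ) ∈ Prod.snd '' rect A' B' C' := h2 ⟨(1 + A, C - A), by
    simp only [rect, Set.mem_prod, Set.mem_Icc]; omega, rfl⟩
  obtain ⟨q1, hq1, e1⟩ := p1
  obtain ⟨q2, hq2, e2⟩ := p2
  obtain ⟨q3, hq3, e3⟩ := p3
  simp only [rect, Set.mem_prod, Set.mem_Icc] at hq1 hq2 hq3
  omega

theorem exists_Dat {g ι : ℕ} (hι : 1 ≤ ι) (hιg : ι < g) (A : Fin g → ℤ) (B C : Fin g → ℕ)
    (hB : ∀ i, 1 ≤ B i) (hC : ∀ i, 1 ≤ C i)
    (h1 : ∀ i i' : Fin g, i.val < ι → ι ≤ i'.val → A i ≤ A i')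
    (h2 : ∀ i i' : Fin g, i.val < ι → ι ≤ i'.val → A i' + B i' + 1 ≤ A i + B i)
    (h3 : ∀ i i' : Fin g, i.val < ι → ι ≤ i'.val → A i' + 1 - C i' + 1 ≤ A i + 1 - C i) :
    ∃ D : Dat (Fin g), D.G = (fun i => i.val < ι) ∧ D.A = A ∧ D.B = B ∧ D.C = C := by
  classical
  set S : Finset (Fin g) := Finset.univ.filter (fun i => i.val < ι) with hS
  have hne : S.Nonempty := ⟨⟨0, by omega⟩, by rw [hS, Finset.mem_filter]; exact ⟨Finset.mem_univ _, by simp; omega⟩⟩
  have hmem : ∀ i : Fin g, i.val < ι → i ∈ S := fun i hi => by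
    rw [hS, Finset.mem_filter]; exact ⟨Finset.mem_univ _, hi⟩
  obtain ⟨i0, hi0, hm0⟩ := Finset.exists_max_image S A hne
  obtain ⟨i1, hi1, hm1⟩ := Finset.exists_min_image S (fun i => A i + 1 - C i) hne
  obtain ⟨i2, hi2, hm2⟩ := Finset.exists_min_image S (fun i => A i + B i) hne
  rw [hS, Finset.mem_filter] at hi0 hi1 hi2
  have hlast : ι ≤ (⟨g - 1, by omega⟩ : Fin g).val := by simp; omega
  set K : ℤ := ∑ i, (|A i| + B i + C i) with hK
  have hKi : ∀ i, |A i| + B i + C i ≤ K := fun i =>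
    Finset.single_le_sum (f := fun i => |A i| + (B i : ℤ) + C i)
      (fun j _ => by positivity) (Finset.mem_univ i)
  have hKi' : ∀ i, -K ≤ A i - C i ∧ A i + B i ≤ K ∧ 1 ≤ (B i : ℤ) ∧ 1 ≤ (C i : ℤ) := by
    intro i
    have := hKi i
    have a1 := neg_abs_le (A i)
    have a2 := le_abs_self (A i)
    have b1 := hB i
    have c1 := hC i
    omega
  refine ⟨{ al := A i0, L := A i1 + 1 - C i1, R := A i2 + B i2, a := -2 * K - 2, b := 2 * K + 2,
            W := 4 * K + 4, G := fun i => i.val < ι, A := A, B := B, C := C, hL := ?_, hR := ?_,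
            B1 := hB, C1 := hC, g1 := ?_, g2 := ?_, aL := ?_, bR := ?_, aA := ?_, bA := ?_,
            WL := ?_, WR := ?_, W1 := ?_, W2 := ?_ }, rfl, rfl, rfl, rfl⟩
  · have := hm1 i0 (hmem _ hi0.2)
    have := hKi' i0
    simp only at *
    omega
  · have e1 := h1 i0 _ hi0.2 hlast
    have e2 := h2 i2 _ hi2.2 hlast
    have e3 := hKi' ⟨g - 1, by omega⟩
    omega
  · intro i hi
    exact ⟨hm0 i (hmem i hi), hm1 i (hmem i hi), hm2 i (hmem i hi)⟩
  · intro i hi
    have hi' : ι ≤ i.val := not_lt.mp hi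
    have e1 := h1 i0 i hi0.2 hi'
    have e2 := h2 i2 i hi2.2 hi'
    have e3 := h3 i1 i hi1.2 hi'
    omega
  · have := hKi' i1; omega
  · have := hKi' i2; omega
  · intro i; have := hKi' i; omega
  · intro i; have := hKi' i; omega
  · have := hKi' i1; omega
  · have := hKi' i2; omega
  · have a1 := hKi' i2
    have a2 := hKi' i0
    omega
  · have a1 := hKi' i1
    have a2 := hKi' i0
    omega

/-- The main theorem, in terms of a trajectory on an arbitrary probability space. -/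
theorem main (law : StLAW) {Ω : Type*} [MeasurableSpace Ω] (P : Measure Ω)
    (gap : ℤ → ℕ → Ω → ℝ) (ζ : Ω → ℝ → ℤ → ℤ) (hT : IsTASEP P gap ζ)
    (g ι : ℕ) (hι : 1 ≤ ι) (hιg : ι < g) (A : Fin g → ℤ) (B C : Fin g → ℕ)
    (hB : ∀ i, 1 ≤ B i) (hC : ∀ i, 1 ≤ C i)
    (h1 : ∀ i i' : Fin g, i.val < ι → ι ≤ i'.val →
      RLe (rect (A i) (B i) (C i)) (rect (A i') (B i') (C i')))
    (h2 : ∀ i i' : Fin g, i.val < ι → ι ≤ i'.val →
      RLe (rect (A i) (B i) (C i)) (rect (A i' + 1) (B i') (C i'))) :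
    IdentDistrib (fun ω i => passage (ζ ω) (A i) (B i) (C i))
      (fun ω i => passage (ζ ω) (A i + if ι ≤ i.val then 1 else 0) (B i) (C i)) P P := by
  classical
  obtain ⟨hP, hm, hl, hi, htr⟩ := hT
  obtain ⟨D, hG, hA, hB', hC'⟩ := exists_Dat hι hιg A B C hB hC
    (fun i i' hi hi' => (RLe_iff (hB i) (hC i) (hB i') (hC i') (h1 i i' hi hi')).1)
    (fun i i' hi hi' => by
      have := (RLe_iff (hB i) (hC i) (hB i') (hC i') (h2 i i' hi hi')).2.1
      omega)
    (fun i i' hi hi' => by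
      have := (RLe_iff (hB i) (hC i) (hB i') (hC i') (h2 i i' hi hi')).2.2
      omega)
  have key := D.law_clk Pool.Agent.Y974.ST.one Pool.Agent.Y974.ST.meas Pool.Agent.Y974.ST.fin law
    good_clk
  set Gm : Ω → (ℤ × ℕ → ℝ) := fun ω p => gap p.1 p.2 ω with hGm
  have hGmm : Measurable Gm := measurable_pi_iff.mpr (fun p => hm p.1 p.2)
  have hGl : P.map Gm = clk := by
    have e1 := hi.map_fun_eq_infinitePi_map (fun p : ℤ × ℕ => hm p.1 p.2)
    rw [hGm, e1]
    unfold clk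
    congr 1
    funext p
    exact hl p.1 p.2
  set f1 : (ℤ × ℕ → ℝ) → Fin g → ℝ≥0∞ := fun x i =>
    TT (nx x) (fun _ _ => False) (D.A i) (D.B i) (D.C i) with hf1
  set f2 : (ℤ × ℕ → ℝ) → Fin g → ℝ≥0∞ := fun x i =>
    TT (nx x) (fun _ _ => False) (if D.G i then D.A i else D.A i + 1) (D.B i) (D.C i) with hf2
  have m1 : Measurable f1 := measurable_pi_iff.mpr (fun i => Pool.Agent.Y974.ST.meas _ _ _ _)
  have m2 : Measurable f2 := measurable_pi_iff.mpr (fun i => Pool.Agent.Y974.ST.meas _ _ _ _)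
  have hgood := Pool.Agent.Y496.ST.goodAE P gap hm hl hi
  have a1 : (fun ω i => passage (ζ ω) (A i) (B i) (C i)) =ᵐ[P] (fun ω => f1 (Gm ω)) := by
    filter_upwards [hgood, htr] with ω hg ht
    funext i
    rw [Pool.Agent.Y285.ST.path _ hg _ ht]
    simp only [hf1, hA, hB', hC']
    rfl
  have a2 : (fun ω (i : Fin g) => passage (ζ ω) (A i + if ι ≤ i.val then 1 else 0) (B i) (C i))
      =ᵐ[P] (fun ω => f2 (Gm ω)) := by
    filter_upwards [hgood, htr] with ω hg ht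
    funext i
    rw [Pool.Agent.Y285.ST.path _ hg _ ht]
    have e1 : (A i + if ι ≤ i.val then 1 else 0) = if D.G i then D.A i else D.A i + 1 := by
      rw [hG, hA]
      by_cases h3 : i.val < ι
      · rw [if_neg (by omega), if_pos h3, add_zero]
      · rw [if_pos (by omega), if_neg h3]
    rw [e1]
    simp only [hf2, hB', hC']
    rfl
  refine ⟨((m1.comp hGmm).aemeasurable).congr a1.symm, ((m2.comp hGmm).aemeasurable).congr a2.symm,
    ?_⟩
  rw [Measure.map_congr a1, Measure.map_congr a2]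
  have b1 : P.map (fun ω => f1 (Gm ω)) = (P.map Gm).map f1 := (Measure.map_map m1 hGmm).symm
  have b2 : P.map (fun ω => f2 (Gm ω)) = (P.map Gm).map f2 := (Measure.map_map m2 hGmm).symm
  rw [b1, b2, hGl]
  exact key

end Pool.Agent.Y999.ST
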