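import Pool.Agent.Y999.ST.Hecke

/-!
# The signed intertwiner
-/

namespace Pool.Agent.Y999.ST

/-- Shift the big particles by one to the right (in a sorted word). -/
def up (x : Cfg) : Cfg := fun s => if x s < 0 then x s else if 0 < x (s - 1) then x (s - 1) else 0

/-- A descent between two non-neutral particles. -/
def Desc (x : Cfg) (k : ℤ) : Prop := x k ≠ 0 ∧ x (k + 1) ≠ 0 ∧ x (k + 1) < x k

/-- Bounded configurations. -/
def Bd (W : ℤ) (x : Cfg) : Prop := ∀ s, x s ≠ 0 → -W < s ∧ s < W ∧ |x s| ≤ W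

/-- A potential. -/
noncomputable def ph (W : ℤ) (x : Cfg) : ℤ := ∑ s ∈ Finset.Icc (-W) W, s * x s

/-- The induction measure. -/
noncomputable def ms (W : ℤ) (x : Cfg) : ℕ := ((2 * W + 1) * (W * W) - ph W x).toNat

theorem Bd_sw {W : ℤ} {x : Cfg} {k : ℤ} (hx : Bd W x) (hk : Desc x k) : Bd W (sw k x) := by
  intro s hs
  by_cases h1 : s = k
  · subst h1
    rw [sw_l]
    exact ⟨(hx s hk.1).1, (hx s hk.1).2.1, (hx _ hk.2.1).2.2⟩
  · by_cases h2 : s = k + 1
    · subst h2
      rw [sw_r]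
      exact ⟨(hx _ hk.2.1).1, (hx _ hk.2.1).2.1, (hx _ hk.1).2.2⟩
    · rw [sw_o _ _ _ h1 h2] at hs ⊢
      exact hx s hs

theorem ph_le {W : ℤ} {x : Cfg} (hW : 0 < W) (hx : Bd W x) : ph W x ≤ (2 * W + 1) * (W * W) := by
  unfold ph
  have h1 : ∀ s ∈ Finset.Icc (-W) W, s * x s ≤ W * W := by
    intro s hs
    rw [Finset.mem_Icc] at hs
    by_cases h0 : x s = 0
    · rw [h0, mul_zero]; positivity
    · have h2 := (hx s h0).2.2
      have h3 : |s| ≤ W := abs_le.mpr hs
      calc s * x s ≤ |s * x s| := le_abs_self _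
        _ = |s| * |x s| := abs_mul _ _
        _ ≤ W * W := mul_le_mul h3 h2 (abs_nonneg _) hW.le
  have h2 := Finset.sum_le_card_nsmul (Finset.Icc (-W) W) (fun s => s * x s) (W * W) h1
  have h3 : (Finset.Icc (-W) W).card = (2 * W + 1).toNat := by
    rw [Int.card_Icc]; congr 1; ring
  rw [h3] at h2
  rw [nsmul_eq_mul] at h2
  have h4 : (((2 * W + 1).toNat : ℕ) : ℤ) = 2 * W + 1 := Int.toNat_of_nonneg (by omega)
  rw [h4] at h2
  exact h2

theorem ph_sw {W : ℤ} {x : Cfg} {k : ℤ} (hx : Bd W x) (hk : Desc x k) :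
    ph W (sw k x) = ph W x + (x k - x (k + 1)) := by
  have hk1 := hx k hk.1
  have hk2 := hx (k + 1) hk.2.1
  unfold ph
  have h1 : ∀ s ∈ Finset.Icc (-W) W, s * sw k x s = s * x s +
      ((if s = k then k * (x (k + 1) - x k) else 0) +
        (if s = k + 1 then (k + 1) * (x k - x (k + 1)) else 0)) := by
    intro s _
    by_cases e1 : s = k
    · subst e1
      have : ¬ (s = s + 1) := by omega
      rw [sw_l]; simp only [this, if_true, if_false]; ring
    · by_cases e2 : s = k + 1
      · subst e2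
        have : ¬ (k + 1 = k) := by omega
        rw [sw_r]; simp only [this, if_true, if_false]; ring
      · rw [sw_o _ _ _ e1 e2]; simp only [e1, e2, if_false]; ring
  rw [Finset.sum_congr rfl h1, Finset.sum_add_distrib, Finset.sum_add_distrib,
    Finset.sum_ite_eq', Finset.sum_ite_eq', if_pos, if_pos]
  · ring
  · rw [Finset.mem_Icc]; omega
  · rw [Finset.mem_Icc]; omega

theorem ms_lt {W : ℤ} {x : Cfg} {k : ℤ} (hx : Bd W x) (hk : Desc x k) :
    ms W (sw k x) < ms W x := by
  have hW : 0 < W := by have := hx k hk.1; omega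
  have h1 := ph_sw hx hk
  have h2 := ph_le hW (Bd_sw hx hk)
  have h3 := hk.2.2
  unfold ms
  omega

open Classical in
/-- The signed intertwiner. -/
noncomputable def Psi (W : ℤ) (x : Cfg) : V :=
  if h : ∃ k, Desc x k ∧ ms W (sw k x) < ms W x then
    th h.choose (x (h.choose + 1)) (x h.choose) (Psi W (sw h.choose x))
  else Finsupp.single (up x) 1
termination_by ms W x
decreasing_by exact h.choose_spec.2

theorem Psi_base {W : ℤ} {x : Cfg} (h : ∀ k, ¬ Desc x k) : Psi W x = Finsupp.single (up x) 1 := by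
  rw [Psi, dif_neg]
  rintro ⟨k, hk, _⟩
  exact h k hk

theorem sw_comm (i j : ℤ) (h : i + 2 ≤ j) (x : Cfg) : sw i (sw j x) = sw j (sw i x) := by
  funext s
  simp only [sw]
  have e1 : ¬ (i = j) := by omega
  have e2 : ¬ (i = j + 1) := by omega
  have e3 : ¬ (i + 1 = j) := by omega
  have e4 : ¬ (i + 1 = j + 1) := by omega
  have e5 : ¬ (j = i) := by omega
  have e6 : ¬ (j = i + 1) := by omega
  have e7 : ¬ (j + 1 = i) := by omega
  have e8 : ¬ (j + 1 = i + 1) := by omega
  simp only [e1, e2, e3, e4, e5, e6, e7, e8, if_false]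
  split_ifs <;> first | rfl | omega

theorem sw_braid (i : ℤ) (x : Cfg) :
    sw i (sw (i + 1) (sw i x)) = sw (i + 1) (sw i (sw (i + 1) x)) := by
  funext s
  simp only [sw]
  have e1 : ¬ (i = i + 1) := by omega
  have e2 : ¬ (i + 1 = i) := by omega
  have e3 : ¬ (i = i + 1 + 1) := by omega
  have e4 : ¬ (i + 1 + 1 = i) := by omega
  have e5 : ¬ (i + 1 + 1 = i + 1) := by omega
  have e6 : ¬ (i + 1 = i + 1 + 1) := by omega
  simp only [e1, e2, e3, e4, e5, e6, if_false, if_true]
  split_ifs <;> first | rfl | omega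

/-- The statement of the main compatibility for one configuration. -/
def Comp (W : ℤ) (x : Cfg) : Prop :=
  ∀ k, Desc x k → Psi W x = th k (x (k + 1)) (x k) (Psi W (sw k x))

theorem comp_far {W : ℤ} {x : Cfg} (hx : Bd W x)
    (ih : ∀ y, ms W y < ms W x → Bd W y → Comp W y) (i j : ℤ) (hij : i + 2 ≤ j)
    (hi : Desc x i) (hj : Desc x j) :
    th i (x (i + 1)) (x i) (Psi W (sw i x)) = th j (x (j + 1)) (x j) (Psi W (sw j x)) := by
  have hji : Desc (sw j x) i := by
    unfold Desc
    rw [sw_o j x i (by omega) (by omega), sw_o j x (i + 1) (by omega) (by omega)]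
    exact hi
  have hij' : Desc (sw i x) j := by
    unfold Desc
    rw [sw_o i x j (by omega) (by omega), sw_o i x (j + 1) (by omega) (by omega)]
    exact hj
  have e1 := ih (sw j x) (ms_lt hx hj) (Bd_sw hx hj) i hji
  have e2 := ih (sw i x) (ms_lt hx hi) (Bd_sw hx hi) j hij'
  rw [sw_o j x i (by omega) (by omega), sw_o j x (i + 1) (by omega) (by omega)] at e1
  rw [sw_o i x j (by omega) (by omega), sw_o i x (j + 1) (by omega) (by omega)] at e2
  rw [← sw_comm i j hij] at e2
  rw [e1, e2]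
  by_cases h3 : i + 3 ≤ j
  · have := congrArg (fun f : V →ₗ[ℤ] V => f (Psi W (sw i (sw j x))))
      (th_comm_far i j (x (i + 1)) (x i) (x (j + 1)) (x j) h3)
    simpa only [Module.End.mul_apply] using this
  · have h4 : j = i + 2 := by omega
    subst h4
    by_cases h5 : x i < 0 ∨ 0 < x (i + 2 + 1)
    · have := congrArg (fun f : V →ₗ[ℤ] V => f (Psi W (sw i (sw (i + 2) x))))
        (th_comm_two i (x (i + 1)) (x i) (x (i + 2 + 1)) (x (i + 2)) h5 hj.2.2)
      simpa only [Module.End.mul_apply] using this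
    · have h6 : 0 < x i := by
        have := hi.1; have h7 : ¬ x i < 0 := fun h => h5 (Or.inl h); omega
      have h7 : x (i + 2 + 1) < 0 := by
        have := hj.2.1; have h7 : ¬ 0 < x (i + 2 + 1) := fun h => h5 (Or.inr h); omega
      set z := sw i (sw (i + 2) x) with hz
      have z1 : z (i + 1) = x i := by
        rw [hz, sw_r, sw_o _ _ _ (by omega) (by omega)]
      have z2 : z (i + 1 + 1) = x (i + 2 + 1) := by
        have : i + 1 + 1 = i + 2 := by ring
        rw [hz, this, sw_o _ _ _ (by omega) (by omega), sw_l]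
      have hzd : Desc z (i + 1) := by
        unfold Desc
        rw [z1, z2]; omega
      have hzm : ms W z < ms W x := lt_trans (ms_lt (Bd_sw hx hj) hji) (ms_lt hx hj)
      have e3 := ih z hzm (Bd_sw (Bd_sw hx hj) hji) (i + 1) hzd
      rw [z1, z2] at e3
      have e4 : th (i + 1) (x (i + 2 + 1)) (x i) = P (i + 1) + P (i + 2) - 1 := by
        unfold th
        rw [if_neg (by omega), if_neg (by omega)]
        have : i + 1 + 1 = i + 2 := by ring
        rw [this]
      rw [e3, e4]
      exact th_comm_mix i _ _ _ _ h6 h7 _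

theorem comp_adj {W : ℤ} {x : Cfg} (hx : Bd W x)
    (ih : ∀ y, ms W y < ms W x → Bd W y → Comp W y) (i : ℤ)
    (hi : Desc x i) (hj : Desc x (i + 1)) :
    th i (x (i + 1)) (x i) (Psi W (sw i x)) =
      th (i + 1) (x (i + 1 + 1)) (x (i + 1)) (Psi W (sw (i + 1) x)) := by
  obtain ⟨a0, b0, hab⟩ := hi
  obtain ⟨-, c0, hbc⟩ := hj
  have hi : Desc x i := ⟨a0, b0, hab⟩
  have hj : Desc x (i + 1) := ⟨b0, c0, hbc⟩
  set a := x i with ha
  set b := x (i + 1) with hb
  set c := x (i + 1 + 1) with hc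
  -- first route
  have v1 : sw i x (i + 1) = a := by rw [sw_r]
  have v2 : sw i x (i + 1 + 1) = c := by rw [sw_o _ _ _ (by omega) (by omega)]
  have v0 : sw i x i = b := by rw [sw_l]
  have d1 : Desc (sw i x) (i + 1) := by
    unfold Desc; rw [v1, v2]; exact ⟨a0, c0, by omega⟩
  have w0 : sw (i + 1) (sw i x) i = b := by rw [sw_o _ _ _ (by omega) (by omega), v0]
  have w1 : sw (i + 1) (sw i x) (i + 1) = c := by rw [sw_l, v2]
  have d2 : Desc (sw (i + 1) (sw i x)) i := by
    unfold Desc; rw [w0, w1]; exact ⟨b0, c0, hbc⟩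
  have hb1 := Bd_sw hx hi
  have hb2 := Bd_sw hb1 d1
  have l1 := ms_lt hx hi
  have l2 := ms_lt hb1 d1
  have e1 := ih _ l1 hb1 _ d1
  have e2 := ih _ (lt_trans l2 l1) hb2 _ d2
  rw [v1, v2] at e1
  rw [w0, w1] at e2
  -- second route
  have v1' : sw (i + 1) x (i + 1) = c := by rw [sw_l]
  have v2' : sw (i + 1) x (i + 1 + 1) = b := by rw [sw_r]
  have v0' : sw (i + 1) x i = a := by rw [sw_o _ _ _ (by omega) (by omega)]
  have d1' : Desc (sw (i + 1) x) i := by
    unfold Desc; rw [v0', v1']; exact ⟨a0, c0, by omega⟩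
  have w1' : sw i (sw (i + 1) x) (i + 1) = a := by rw [sw_r, v0']
  have w2' : sw i (sw (i + 1) x) (i + 1 + 1) = b := by
    rw [sw_o _ _ _ (by omega) (by omega), v2']
  have d2' : Desc (sw i (sw (i + 1) x)) (i + 1) := by
    unfold Desc; rw [w1', w2']; exact ⟨a0, b0, hab⟩
  have hb1' := Bd_sw hx hj
  have hb2' := Bd_sw hb1' d1'
  have l1' := ms_lt hx hj
  have l2' := ms_lt hb1' d1'
  have e1' := ih _ l1' hb1' _ d1'
  have e2' := ih _ (lt_trans l2' l1') hb2' _ d2'
  rw [v0', v1'] at e1'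
  rw [w1', w2'] at e2'
  rw [e1, e2, e1', e2', sw_braid]
  have := congrArg (fun f : V →ₗ[ℤ] V => f (Psi W (sw (i + 1) (sw i (sw (i + 1) x)))))
    (th_braid i a b c hab hbc a0 b0 c0)
  simpa only [Module.End.mul_apply] using this

theorem comp_all (W : ℤ) : ∀ (n : ℕ) (x : Cfg), ms W x = n → Bd W x → Comp W x := by
  intro n
  induction n using Nat.strong_induction_on with
  | _ n ihn =>
    intro x hn hx k hk
    have ih : ∀ y, ms W y < ms W x → Bd W y → Comp W y := fun y hy hb =>
      ihn (ms W y) (by omega) y rfl hb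
    have hex : ∃ k, Desc x k ∧ ms W (sw k x) < ms W x := ⟨k, hk, ms_lt hx hk⟩
    have e0 : Psi W x = th hex.choose (x (hex.choose + 1)) (x hex.choose)
        (Psi W (sw hex.choose x)) := by
      conv_lhs => rw [Psi]
      rw [dif_pos hex]
    have hj : Desc x hex.choose := hex.choose_spec.1
    rw [e0]
    generalize hex.choose = j at hj
    rcases lt_trichotomy j k with h | h | h
    · by_cases h2 : j + 2 ≤ k
      · exact comp_far hx ih j k h2 hj hk
      · have : k = j + 1 := by omega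
        subst this
        exact comp_adj hx ih j hj hk
    · subst h; rfl
    · by_cases h2 : k + 2 ≤ j
      · exact (comp_far hx ih k j h2 hk hj).symm
      · have : j = k + 1 := by omega
        subst this
        exact (comp_adj hx ih k hk hj).symm

theorem Psi_desc {W : ℤ} {x : Cfg} (hx : Bd W x) {k : ℤ} (hk : Desc x k) :
    Psi W x = th k (x (k + 1)) (x k) (Psi W (sw k x)) :=
  comp_all W _ x rfl hx k hk

/-- Induction principle. -/
theorem Psi_ind {W : ℤ} {Q : Cfg → Prop} (h0 : ∀ x, Bd W x → (∀ k, ¬ Desc x k) → Q x)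
    (h1 : ∀ x k, Bd W x → Desc x k → Q (sw k x) → Q x) : ∀ x, Bd W x → Q x := by
  have key : ∀ (n : ℕ) (x : Cfg), ms W x = n → Bd W x → Q x := by
    intro n
    induction n using Nat.strong_induction_on with
    | _ n ihn =>
      intro x hn hx
      by_cases h : ∃ k, Desc x k
      · obtain ⟨k, hk⟩ := h
        exact h1 x k hx hk (ihn _ (hn ▸ ms_lt hx hk) _ rfl (Bd_sw hx hk))
      · exact h0 x hx (fun k hk => h ⟨k, hk⟩)
  exact fun x hx => key _ x rfl hx

end Pool.Agent.Y999.ST
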