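import Pool.Agent.Y999.ST.Psi

/-!
# Leading letters, emission on the left
-/

namespace Pool.Agent.Y999.ST

/-- `x` is non-neutral exactly on `[p, q)`. -/
def Co (p q : ℤ) (x : Cfg) : Prop := ∀ s, x s ≠ 0 ↔ p ≤ s ∧ s < q

theorem Co_sw {p q : ℤ} {x : Cfg} {k : ℤ} (hx : Co p q x) (hk : Desc x k) : Co p q (sw k x) := by
  intro s
  by_cases h1 : s = k
  · subst h1
    rw [sw_l, ← hx]
    exact ⟨fun _ => hk.1, fun _ => hk.2.1⟩
  · by_cases h2 : s = k + 1
    · subst h2
      rw [sw_r, ← hx]
      exact ⟨fun _ => hk.2.1, fun _ => hk.1⟩
    · rw [sw_o _ _ _ h1 h2]
      exact hx s

/-- Put the value `c` at site `p`. -/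
noncomputable def addc (p c : ℤ) : V →ₗ[ℤ] V :=
  Finsupp.lmapDomain ℤ ℤ (fun y : Cfg => Function.update y p c)

theorem addc_single (p c : ℤ) (y : Cfg) (a : ℤ) :
    addc p c (Finsupp.single y a) = Finsupp.single (Function.update y p c) a := by
  simp [addc, Finsupp.lmapDomain_apply, Finsupp.mapDomain_single]

open Classical in
theorem supp_P {k : ℤ} {v : V} {y : Cfg} (hy : y ∈ (P k v).support) :
    ∃ y' ∈ v.support, act k y' = y := by
  have h := Finsupp.mapDomain_support (f := act k) (s := v) hy
  rwa [Finset.mem_image] at h

open Classical in
theorem supp_addc {p c : ℤ} {v : V} {y : Cfg} (hy : y ∈ (addc p c v).support) :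
    ∃ y' ∈ v.support, Function.update y' p c = y := by
  have h := Finsupp.mapDomain_support (f := fun y : Cfg => Function.update y p c) (s := v) hy
  rwa [Finset.mem_image] at h

open Classical in
theorem supp_add3 {a b c : V} {y : Cfg} (hy : y ∈ (a + b - c).support) :
    y ∈ a.support ∨ y ∈ b.support ∨ y ∈ c.support := by
  have h1 := Finsupp.support_sub hy
  rw [Finset.mem_union] at h1
  rcases h1 with h1 | h1
  · have h2 := Finsupp.support_add h1
    rw [Finset.mem_union] at h2
    tauto
  · tauto

theorem supp_th {k u w : ℤ} {v : V} {y : Cfg} (hy : y ∈ (th k u w v).support) :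
    ∃ y' ∈ v.support, y = act k y' ∨ y = act (k + 1) y' ∨ y = y' := by
  unfold th at hy
  split_ifs at hy
  · obtain ⟨y', h1, h2⟩ := supp_P hy
    exact ⟨y', h1, Or.inl h2.symm⟩
  · obtain ⟨y', h1, h2⟩ := supp_P hy
    exact ⟨y', h1, Or.inr (Or.inl h2.symm)⟩
  · simp only [LinearMap.sub_apply, LinearMap.add_apply, Module.End.one_apply] at hy
    rcases supp_add3 hy with h | h | h
    · obtain ⟨y', h1, h2⟩ := supp_P h
      exact ⟨y', h1, Or.inl h2.symm⟩
    · obtain ⟨y', h1, h2⟩ := supp_P h
      exact ⟨y', h1, Or.inr (Or.inl h2.symm)⟩
    · exact ⟨y, h, Or.inr (Or.inr rfl)⟩

theorem act_update (j p c : ℤ) (h1 : p ≠ j) (h2 : p ≠ j + 1) (y : Cfg) :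
    act j (Function.update y p c) = Function.update (act j y) p c := by
  funext s
  have e1 : Function.update y p c j = y j := Function.update_of_ne h1.symm _ _
  have e2 : Function.update y p c (j + 1) = y (j + 1) := Function.update_of_ne h2.symm _ _
  rw [act_apply, e1, e2]
  by_cases hs : s = p
  · subst hs
    rw [Function.update_self, if_neg h1, if_neg h2, Function.update_self]
  · rw [Function.update_of_ne hs, Function.update_of_ne hs, act_apply]

theorem addc_P (j p c : ℤ) (h1 : p ≠ j) (h2 : p ≠ j + 1) (v : V) :
    P j (addc p c v) = addc p c (P j v) := by
  have : P j * addc p c = addc p c * P j := by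
    apply Finsupp.lhom_ext
    intro y a
    simp only [Module.End.mul_apply, P_single, addc_single, act_update j p c h1 h2]
  have := congrArg (fun f : V →ₗ[ℤ] V => f v) this
  simpa only [Module.End.mul_apply] using this

theorem addc_th (j p c u w : ℤ) (h1 : p < j) (v : V) :
    th j u w (addc p c v) = addc p c (th j u w v) := by
  unfold th
  split_ifs
  · exact addc_P _ _ _ (by omega) (by omega) v
  · exact addc_P _ _ _ (by omega) (by omega) v
  · simp only [LinearMap.sub_apply, LinearMap.add_apply, Module.End.one_apply, map_sub, map_add]
    rw [addc_P _ _ _ (by omega) (by omega) v, addc_P _ _ _ (by omega) (by omega) v]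

theorem P_addc2 (p e d : ℤ) (h : e < d) (v : V) :
    P p (addc p e (addc (p + 1) d v)) = addc p d (addc (p + 1) e v) := by
  have key : P p * (addc p e * addc (p + 1) d) = addc p d * addc (p + 1) e := by
    apply Finsupp.lhom_ext
    intro y a
    simp only [Module.End.mul_apply, P_single, addc_single]
    congr 1
    funext s
    have n1 : ¬ (p + 1 = p) := by omega
    rw [act_apply]
    rw [Function.update_self, Function.update_of_ne n1, Function.update_self]
    by_cases h1 : s = p
    · subst h1
      rw [if_pos rfl, Function.update_self, max_eq_right h.le]
    · by_cases h2 : s = p + 1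
      · subst h2
        rw [if_neg n1, if_pos rfl, Function.update_of_ne n1, Function.update_self,
          min_eq_left h.le]
      · rw [if_neg h1, if_neg h2, Function.update_of_ne h1, Function.update_of_ne h2,
          Function.update_of_ne h1, Function.update_of_ne h2]
  have := congrArg (fun f : V →ₗ[ℤ] V => f v) key
  simpa only [Module.End.mul_apply] using this

theorem Bd_er {W : ℤ} {x : Cfg} (hx : Bd W x) (p : ℤ) : Bd W (Function.update x p 0) := by
  intro s hs
  by_cases h : s = p
  · subst h; simp at hs
  · rw [Function.update_of_ne h] at hs ⊢
    exact hx s hs

theorem Co_er {p q : ℤ} {x : Cfg} (hx : Co p q x) : Co (p + 1) q (Function.update x p 0) := by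
  intro s
  by_cases h : s = p
  · subst h; simp
  · rw [Function.update_of_ne h, hx s]
    omega

theorem sw_er (j p : ℤ) (h : p < j) (x : Cfg) :
    sw j (Function.update x p 0) = Function.update (sw j x) p 0 := by
  funext s
  simp only [sw, Function.update_apply]
  have e1 : ¬ (j = p) := by omega
  have e2 : ¬ (j + 1 = p) := by omega
  simp only [e1, e2, if_false]
  split_ifs <;> first | rfl | omega

theorem Desc_er {j p : ℤ} (h : p < j) {x : Cfg} : Desc (Function.update x p 0) j ↔ Desc x j := by
  unfold Desc
  rw [Function.update_of_ne (by omega), Function.update_of_ne (by omega)]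

/-- A common step: an erased configuration with a descent further right. -/
theorem er_step {W : ℤ} {x : Cfg} (hx : Bd W x) {p j : ℤ} (h : p < j) (hj : Desc x j) :
    Psi W (Function.update x p 0) =
      th j (x (j + 1)) (x j) (Psi W (Function.update (sw j x) p 0)) := by
  have h1 := Psi_desc (Bd_er hx p) ((Desc_er h).mpr hj)
  rw [Function.update_of_ne (by omega), Function.update_of_ne (by omega), sw_er j p h] at h1
  exact h1

/-- Leading labelled letter. -/
theorem Psi_lead (W : ℤ) : ∀ (n : ℕ) (p q : ℤ), (q - p).toNat = n → ∀ (m : ℕ) (x : Cfg),
    ms W x = m → Bd W x → Co p q x → p < q → x p < 0 →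
    Psi W x = addc p (x p) (Psi W (Function.update x p 0)) := by
  intro n
  induction n with
  | zero => intro p q h m x _ _ _ hpq; omega
  | succ n ihn =>
    intro p q hn m
    induction m using Nat.strong_induction_on with
    | _ m ihm =>
      intro x hm hx hc hpq hxp
      by_cases hj : ∃ j, p < j ∧ Desc x j
      · obtain ⟨j, hpj, hj⟩ := hj
        rw [Psi_desc hx hj, er_step hx hpj hj]
        have h1 : sw j x p = x p := sw_o _ _ _ (by omega) (by omega)
        have h2 := ihm _ (hm ▸ ms_lt hx hj) (sw j x) rfl (Bd_sw hx hj) (Co_sw hc hj) hpq
          (by rw [h1]; exact hxp)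
        rw [h2, h1, addc_th _ _ _ _ _ hpj]
      · by_cases hd : Desc x p
        · have hx1 : x (p + 1) < 0 := by have := hd.2.2; omega
          have hpq' : p + 1 < q := ((hc (p + 1)).mp hd.2.1).2
          set z := sw p x with hz
          have z0 : z p = x (p + 1) := sw_l _ _
          have z1 : z (p + 1) = x p := sw_r _ _
          have e1 := ihm _ (hm ▸ ms_lt hx hd) z rfl (Bd_sw hx hd) (Co_sw hc hd) hpq
            (by rw [z0]; exact hx1)
          have hzc := Co_er (Co_sw hc hd)
          rw [← hz] at hzc
          have hxc := Co_er hc
          have e2 := ihn (p + 1) q (by omega) _ (Function.update z p 0) rfl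
            (Bd_er (Bd_sw hx hd) p) hzc hpq'
            (by rw [Function.update_of_ne (by omega), z1]; exact hxp)
          have e3 := ihn (p + 1) q (by omega) _ (Function.update x p 0) rfl
            (Bd_er hx p) hxc hpq'
            (by rw [Function.update_of_ne (by omega)]; exact hx1)
          rw [Function.update_of_ne (by omega), z1] at e2
          rw [Function.update_of_ne (by omega)] at e3
          have e4 : Function.update (Function.update z p 0) (p + 1) 0 =
              Function.update (Function.update x p 0) (p + 1) 0 := by
            funext s
            by_cases h1 : s = p + 1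
            · subst h1; simp
            · by_cases h2 : s = p
              · subst h2
                rw [Function.update_of_ne h1, Function.update_of_ne h1, Function.update_self,
                  Function.update_self]
              · rw [Function.update_of_ne h1, Function.update_of_ne h1,
                  Function.update_of_ne h2, Function.update_of_ne h2, hz, sw_o _ _ _ h2 h1]
          have e5 : Psi W x = P p (Psi W z) := by
            rw [Psi_desc hx hd]
            unfold th
            rw [if_pos hxp]
          rw [e5, e1, e2, z0, e4, P_addc2 _ _ _ hd.2.2, e3]
        · have hno : ∀ k, ¬ Desc x k := by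
            intro k hk
            have h1 := ((hc k).mp hk.1).1
            rcases lt_or_eq_of_le h1 with h2 | h2
            · exact hj ⟨k, h2, hk⟩
            · subst h2; exact hd hk
          have hno' : ∀ k, ¬ Desc (Function.update x p 0) k := by
            intro k hk
            by_cases h1 : p < k
            · exact hno k ((Desc_er h1).mp hk)
            · have h2 := ((Co_er hc k).mp hk.1).1
              omega
          rw [Psi_base hno, Psi_base hno', addc_single]
          congr 1
          funext s
          by_cases h1 : s = p
          · subst h1
            rw [Function.update_self]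
            simp [up, hxp]
          · rw [Function.update_of_ne h1]
            simp only [up]
            rw [Function.update_of_ne h1]
            by_cases h2 : s - 1 = p
            · rw [h2, Function.update_self]
              have : ¬ (0 < x p) := by omega
              simp [this]
            · rw [Function.update_of_ne h2]

theorem lead {W p q : ℤ} {x : Cfg} (hx : Bd W x) (hc : Co p q x) (hpq : p < q) (hxp : x p < 0) :
    Psi W x = addc p (x p) (Psi W (Function.update x p 0)) :=
  Psi_lead W _ p q rfl _ x rfl hx hc hpq hxp

/-- All letters big. -/
theorem all_big {W : ℤ} : ∀ x : Cfg, Bd W x → (∀ s, 0 ≤ x s) →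
    Psi W x = Finsupp.single (fun s => x (s - 1)) 1 := by
  apply Psi_ind (Q := fun x => (∀ s, 0 ≤ x s) → Psi W x = Finsupp.single (fun s => x (s - 1)) 1)
  · intro x _ hno h0
    rw [Psi_base hno]
    congr 1
    funext s
    have h1 := h0 s
    have h2 := h0 (s - 1)
    simp only [up]
    rw [if_neg (by omega)]
    split_ifs <;> omega
  · intro x k hx hk ih h0
    rw [Psi_desc hx hk, ih]
    · have h1 := h0 (k + 1)
      have h2 := h0 k
      have h3 := hk.2.1
      unfold th
      rw [if_neg (by omega), if_pos (by omega), P_single]
      congr 1
      funext s
      have e0 : k + 1 - 1 = k := by ring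
      have e1 : k + 1 + 1 - 1 = k + 1 := by ring
      rw [act_apply]
      simp only [e0, e1, sw_l, sw_r]
      have h4 := hk.2.2
      by_cases s1 : s = k + 1
      · subst s1
        rw [if_pos rfl, max_eq_right h4.le, e0]
      · by_cases s2 : s = k + 1 + 1
        · subst s2
          rw [if_neg (by omega), if_pos rfl, min_eq_left h4.le, e1]
        · rw [if_neg s1, if_neg s2, sw_o _ _ _ (by omega) (by omega)]
    · intro s
      by_cases s1 : s = k
      · subst s1; rw [sw_l]; exact h0 _
      · by_cases s2 : s = k + 1
        · subst s2; rw [sw_r]; exact h0 _
        · rw [sw_o _ _ _ s1 s2]; exact h0 _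

/-- `P p` commutes with `th j` on `Psi z` if `z p` is big and `j > p`. -/
theorem P_th_comm {W : ℤ} {z : Cfg} (hz : Bd W z) {p j u w : ℤ} (hpj : p < j)
    (h1 : j = p + 1 → (z (p + 1) < 0 ∨ 0 < u)) (hp : 0 < z p)
    (h2 : j = p + 1 → 0 < w) :
    P p (th j u w (Psi W z)) = th j u w (P p (Psi W z)) := by
  by_cases hj : p + 2 ≤ j
  · have c1 := P_comm_v p j (by omega)
    have c2 := P_comm_v p (j + 1) (by omega)
    unfold th
    split_ifs
    · exact c1 _
    · exact c2 _
    · simp only [LinearMap.sub_apply, LinearMap.add_apply, Module.End.one_apply, map_sub,
        map_add, c1, c2]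
  · have h3 : j = p + 1 := by omega
    subst h3
    have hw := h2 rfl
    have c2 := P_comm_v p (p + 1 + 1) (by omega)
    rcases h1 rfl with h4 | h4
    · by_cases hu : 0 < u
      · unfold th
        rw [if_neg (by omega), if_pos hu]
        exact c2 _
      · have hzd : Desc z p := ⟨by omega, by omega, by omega⟩
        have e1 := Psi_desc hz hzd
        have e2 : th p (z (p + 1)) (z p) = P p + P (p + 1) - 1 := by
          unfold th
          rw [if_neg (by omega), if_neg (by omega)]
        rw [e2] at e1
        have sp := rid_comm (P p) (P (p + 1)) (P_idem _) (P_idem _) (P_braid p)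
        have sp' := congrArg (fun f : V →ₗ[ℤ] V => f (Psi W (sw p z))) sp
        simp only [Module.End.mul_apply] at sp'
        rw [← e1] at sp'
        unfold th
        rw [if_neg (by omega), if_neg (by omega)]
        simp only [LinearMap.sub_apply, LinearMap.add_apply, Module.End.one_apply, map_sub,
          map_add, c2, sp']
    · unfold th
      rw [if_neg (by omega), if_pos h4]
      exact c2 _

/-- The sites after `p` are nonnegative if there is no descent there. -/
theorem nonneg_of_no_desc {p q : ℤ} {x : Cfg} (hc : Co p q x) (hp : 0 < x p)
    (hp1 : 0 ≤ x (p + 1)) (hno : ∀ j, p < j → ¬ Desc x j) : ∀ s, 0 ≤ x s := by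
  intro s
  rcases lt_trichotomy s p with h | h | h
  · have : x s = 0 := by
      by_contra h1
      have := ((hc s).mp h1).1; omega
    omega
  · subst h; omega
  · have key : ∀ t, p + 1 ≤ t → 0 ≤ x t := by
      intro t ht
      induction t, ht using Int.leInduction with
      | base => exact hp1
      | succ t ht ih =>
        by_cases h0 : x (t + 1) = 0
        · omega
        · have h1 := (hc (t + 1)).mp h0
          have h2 : x t ≠ 0 := (hc t).mpr ⟨by omega, by omega⟩
          have h3 := hno t (by omega)
          unfold Desc at h3
          by_contra h4
          exact h3 ⟨h2, h0, by omega⟩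
    exact key s (by omega)

/-- Emission of a leading big letter, and the first letter of every term is not big. -/
theorem emit_aux (W : ℤ) : ∀ (n : ℕ) (p q : ℤ), (q - p).toNat = n → ∀ (m : ℕ) (x : Cfg),
    ms W x = m → Bd W x → Co p q x →
    (p < q → 0 < x p → P p (Psi W x) = addc p (x p) (Psi W (Function.update x p 0))) ∧
    (p ≤ q → ∀ y ∈ (Psi W x).support, y p ≤ 0) := by
  intro n
  induction n with
  | zero =>
    intro p q hn m x hm hx hc
    refine ⟨fun h => by omega, fun hpq y hy => ?_⟩
    have h0 : ∀ s, x s = 0 := by
      intro s
      by_contra h
      have := (hc s).mp h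
      omega
    have h1 := all_big x hx (fun s => (h0 s).ge)
    rw [h1] at hy
    have := Finsupp.support_single_subset hy
    rw [Finset.mem_singleton] at this
    rw [this]
    exact (h0 _).le
  | succ n ihn =>
    intro p q hn m
    induction m using Nat.strong_induction_on with
    | _ m ihm =>
      intro x hm hx hc
      have hpq : p < q := by omega
      have hxp0 : x p ≠ 0 := (hc p).mpr ⟨le_rfl, hpq⟩
      rcases lt_or_gt_of_ne hxp0 with hxp | hxp
      · -- labelled
        refine ⟨fun _ h => by omega, fun _ y hy => ?_⟩
        rw [lead hx hc hpq hxp] at hy
        obtain ⟨y', _, rfl⟩ := supp_addc hy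
        rw [Function.update_self]
        exact hxp.le
      · by_cases hx1 : x (p + 1) < 0
        · -- big, labelled
          have hpq' : p + 1 < q := ((hc (p + 1)).mp (by omega)).2
          have hd : Desc x p := ⟨hxp0, by omega, by omega⟩
          set z := sw p x with hz
          have z0 : z p = x (p + 1) := sw_l _ _
          have z1 : z (p + 1) = x p := sw_r _ _
          have e1 := lead (x := z) (Bd_sw hx hd) (Co_sw hc hd) hpq (by rw [z0]; exact hx1)
          have hzc := Co_er (Co_sw hc hd)
          rw [← hz] at hzc
          have hxc := Co_er hc
          have hzn := ihn (p + 1) q (by omega) _ (Function.update z p 0) rfl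
            (Bd_er (Bd_sw hx hd) p) hzc
          have e4 : Function.update (Function.update z p 0) (p + 1) 0 =
              Function.update (Function.update x p 0) (p + 1) 0 := by
            funext s
            by_cases h1 : s = p + 1
            · subst h1; simp
            · by_cases h2 : s = p
              · subst h2
                rw [Function.update_of_ne h1, Function.update_of_ne h1, Function.update_self,
                  Function.update_self]
              · rw [Function.update_of_ne h1, Function.update_of_ne h1,
                  Function.update_of_ne h2, Function.update_of_ne h2, hz, sw_o _ _ _ h2 h1]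
          have e5 : Psi W x = P p (Psi W z) + P (p + 1) (Psi W z) - Psi W z := by
            rw [Psi_desc hx hd]
            unfold th
            rw [if_neg (by omega), if_neg (by omega)]
            simp only [LinearMap.sub_apply, LinearMap.add_apply, Module.End.one_apply]
            rfl
          constructor
          · intro _ _
            have e2 := hzn.1 hpq' (by rw [Function.update_of_ne (by omega), z1]; exact hxp)
            rw [Function.update_of_ne (by omega), z1] at e2
            have e3 := lead (Bd_er hx p) hxc hpq'
              (by rw [Function.update_of_ne (by omega)]; exact hx1)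
            rw [Function.update_of_ne (by omega)] at e3
            rw [e5, map_sub, map_add, P_idem_v, add_sub_cancel_left, e1, z0,
              addc_P _ _ _ (by omega) (by omega), e2, e4, P_addc2 _ _ _ (by omega), e3]
          · intro _ y hy
            have hz1 := hzn.2 (by omega)
            have hzy : ∀ y' ∈ (Psi W z).support, y' p = x (p + 1) ∧ y' (p + 1) ≤ 0 := by
              intro y' hy'
              rw [e1] at hy'
              obtain ⟨y'', hy'', rfl⟩ := supp_addc hy'
              refine ⟨by rw [Function.update_self, z0], ?_⟩
              rw [Function.update_of_ne (by omega)]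
              exact hz1 y'' hy''
            rw [e5] at hy
            rcases supp_add3 hy with h1 | h1 | h1
            · obtain ⟨y', hy', rfl⟩ := supp_P h1
              rw [act_l]
              have := hzy y' hy'
              exact max_le (by omega) this.2
            · obtain ⟨y', hy', rfl⟩ := supp_P h1
              rw [act_o _ _ _ (by omega) (by omega)]
              have := hzy y' hy'
              omega
            · have := hzy y h1
              omega
        · by_cases hj : ∃ j, p < j ∧ Desc x j
          · obtain ⟨j, hpj, hj⟩ := hj
            have h1 : sw j x p = x p := sw_o _ _ _ (by omega) (by omega)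
            have h2 := ihm _ (hm ▸ ms_lt hx hj) (sw j x) rfl (Bd_sw hx hj) (Co_sw hc hj)
            constructor
            · intro _ _
              have h3 := h2.1 hpq (by rw [h1]; exact hxp)
              rw [h1] at h3
              rw [er_step hx hpj hj, ← addc_th _ _ _ _ _ hpj, ← h3, Psi_desc hx hj]
              apply P_th_comm (Bd_sw hx hj) hpj
              · intro h4
                subst h4
                rw [sw_l]
                have := hj.2.1
                omega
              · rw [h1]; exact hxp
              · intro h4
                subst h4
                have := hj.1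
                omega
            · intro _ y hy
              have h3 := h2.2 hpq.le
              rw [Psi_desc hx hj] at hy
              obtain ⟨y', hy', h4 | h4 | h4⟩ := supp_th hy
              · rw [h4, act_o _ _ _ (by omega) (by omega)]
                exact h3 y' hy'
              · rw [h4, act_o _ _ _ (by omega) (by omega)]
                exact h3 y' hy'
              · rw [h4]
                exact h3 y' hy'
          · have hno : ∀ j, p < j → ¬ Desc x j := fun j h1 h2 => hj ⟨j, h1, h2⟩
            have hnn := nonneg_of_no_desc hc hxp (by omega) hno
            have e1 := all_big x hx hnn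
            constructor
            · intro _ _
              have hnn' : ∀ s, 0 ≤ Function.update x p 0 s := by
                intro s
                by_cases h : s = p
                · subst h; simp
                · rw [Function.update_of_ne h]; exact hnn s
              rw [e1, all_big _ (Bd_er hx p) hnn', P_single, addc_single]
              congr 1
              have hz : x (p - 1) = 0 := by
                by_contra h
                have := ((hc _).mp h).1
                omega
              have e0 : p + 1 - 1 = p := by ring
              funext s
              rw [act_apply]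
              simp only [hz, e0]
              by_cases s1 : s = p
              · subst s1
                rw [if_pos rfl, Function.update_self, max_eq_right hxp.le]
              · by_cases s2 : s = p + 1
                · subst s2
                  rw [if_neg s1, if_pos rfl, Function.update_of_ne s1, e0, Function.update_self,
                    min_eq_left hxp.le]
                · rw [if_neg s1, if_neg s2, Function.update_of_ne s1,
                    Function.update_of_ne (by omega)]
            · intro _ y hy
              rw [e1] at hy
              have := Finsupp.support_single_subset hy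
              rw [Finset.mem_singleton] at this
              rw [this]
              have hz : x (p - 1) = 0 := by
                by_contra h
                have := ((hc _).mp h).1
                omega
              exact hz.le

theorem emitL {W p q : ℤ} {x : Cfg} (hx : Bd W x) (hc : Co p q x) (hpq : p < q) (hxp : 0 < x p) :
    P p (Psi W x) = addc p (x p) (Psi W (Function.update x p 0)) :=
  (emit_aux W _ p q rfl _ x rfl hx hc).1 hpq hxp

theorem firstL {W p q : ℤ} {x : Cfg} (hx : Bd W x) (hc : Co p q x) (hpq : p ≤ q) :
    ∀ y ∈ (Psi W x).support, y p ≤ 0 :=
  (emit_aux W _ p q rfl _ x rfl hx hc).2 hpq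

end Pool.Agent.Y999.ST
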