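import Pool.Agent.Y999.ST.Psi2

/-!
# Reflection, emission on the right, supports
-/

namespace Pool.Agent.Y999.ST

/-- Reflection (side of the words). -/
def st (x : Cfg) : Cfg := fun s => - x (-s)

/-- Reflection (side of the combinations). -/
def sg (y : Cfg) : Cfg := fun s => - y (1 - s)

/-- Linear extension of the reflection. -/
noncomputable def T : V →ₗ[ℤ] V := Finsupp.lmapDomain ℤ ℤ sg

theorem sg_sg (y : Cfg) : sg (sg y) = y := by
  funext s; simp [sg]

theorem sg_inj : Function.Injective sg := fun a b h => by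
  rw [← sg_sg a, h, sg_sg]

theorem T_inj : Function.Injective T := Finsupp.mapDomain_injective sg_inj

theorem T_single (y : Cfg) (c : ℤ) : T (Finsupp.single y c) = Finsupp.single (sg y) c := by
  simp [T, Finsupp.lmapDomain_apply, Finsupp.mapDomain_single]

theorem sg_act (k : ℤ) (y : Cfg) : sg (act k y) = act (-k) (sg y) := by
  funext s
  have e1 : sg y (-k) = - y (k + 1) := by simp only [sg]; congr 2; ring
  have e2 : sg y (-k + 1) = - y k := by simp only [sg]; congr 2; ring
  rw [act_apply, e1, e2]
  show - act k y (1 - s) = _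
  rw [act_apply]
  by_cases h1 : s = -k
  · have h2 : 1 - s ≠ k := by omega
    have h3 : 1 - s = k + 1 := by omega
    rw [if_neg h2, if_pos h3, if_pos h1]
    omega
  · by_cases h2 : s = -k + 1
    · have h3 : 1 - s = k := by omega
      rw [if_pos h3, if_neg h1, if_pos h2]
      omega
    · rw [if_neg (by omega), if_neg (by omega), if_neg h1, if_neg h2]
      rfl

theorem T_P (k : ℤ) (v : V) : T (P k v) = P (-k) (T v) := by
  have : T * P k = P (-k) * T := by
    apply Finsupp.lhom_ext
    intro y a
    simp only [Module.End.mul_apply, P_single, T_single, sg_act]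
  have := congrArg (fun f : V →ₗ[ℤ] V => f v) this
  simpa only [Module.End.mul_apply] using this

theorem T_addc (p c : ℤ) (v : V) : T (addc p c v) = addc (1 - p) (-c) (T v) := by
  have : T * addc p c = addc (1 - p) (-c) * T := by
    apply Finsupp.lhom_ext
    intro y a
    simp only [Module.End.mul_apply, addc_single, T_single]
    congr 1
    funext s
    simp only [sg, Function.update_apply]
    by_cases h : s = 1 - p
    · rw [if_pos (by omega), if_pos h]
    · rw [if_neg (by omega), if_neg h]
  have := congrArg (fun f : V →ₗ[ℤ] V => f v) this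
  simpa only [Module.End.mul_apply] using this

theorem T_th (k u w : ℤ) (huw : u < w) (hu : u ≠ 0) (hw : w ≠ 0) (v : V) :
    T (th k u w v) = th (-k - 1) (-w) (-u) (T v) := by
  have e1 : -k - 1 + 1 = -k := by ring
  have e2 : -(k + 1) = -k - 1 := by ring
  unfold th
  rw [e1]
  rcases lt_or_gt_of_ne hw with h | h
  · rw [if_pos h, if_neg (by omega), if_pos (by omega), T_P]
  · rcases lt_or_gt_of_ne hu with h' | h'
    · rw [if_neg (by omega), if_neg (by omega), if_neg (by omega), if_neg (by omega)]
      simp only [LinearMap.sub_apply, LinearMap.add_apply, Module.End.one_apply, map_sub,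
        map_add, T_P, e2]
      abel
    · rw [if_neg (by omega), if_pos (by omega), if_pos (by omega), T_P, e2]

theorem st_sw (k : ℤ) (x : Cfg) : st (sw k x) = sw (-k - 1) (st x) := by
  have e1 : -(-k - 1) = k + 1 := by ring
  have e2 : -(-k - 1 + 1) = k := by ring
  funext s
  simp only [st, sw, e1, e2]
  by_cases h1 : s = -k - 1
  · rw [if_neg (by omega), if_pos (by omega), if_pos (by omega)]
  · by_cases h2 : s = -k
    · rw [if_pos (by omega), if_neg (by omega), if_pos (by omega)]
    · rw [if_neg (by omega), if_neg (by omega), if_neg (by omega), if_neg (by omega)]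

theorem Desc_st {x : Cfg} {k : ℤ} (h : Desc x k) : Desc (st x) (-k - 1) := by
  have e1 : -(-k - 1) = k + 1 := by ring
  have e2 : -(-k - 1 + 1) = k := by ring
  unfold Desc at *
  simp only [st, e1, e2]
  omega

theorem Bd_st {W : ℤ} {x : Cfg} (hx : Bd W x) : Bd W (st x) := by
  intro s hs
  have h1 : x (-s) ≠ 0 := by intro h; apply hs; simp [st, h]
  have h2 := hx _ h1
  refine ⟨by omega, by omega, ?_⟩
  simp only [st, abs_neg]
  exact h2.2.2

theorem st_st (x : Cfg) : st (st x) = x := by funext s; simp [st]

theorem up_st {x : Cfg} (h : ∀ k, ¬ Desc x k) : up (st x) = sg (up x) := by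
  funext s
  have e1 : -(s - 1) = 1 - s := by ring
  have e2 : 1 - s - 1 = -s := by ring
  have e3 : -s + 1 = 1 - s := by ring
  simp only [up, st, sg, e1, e2]
  have h1 := h (-s)
  unfold Desc at h1
  rw [e3] at h1
  split_ifs <;> omega

theorem Psi_st {W : ℤ} : ∀ x : Cfg, Bd W x → Psi W (st x) = T (Psi W x) := by
  apply Psi_ind
  · intro x _ hno
    have hno' : ∀ k, ¬ Desc (st x) k := by
      intro k hk
      have := Desc_st hk
      rw [st_st] at this
      exact hno _ this
    rw [Psi_base hno, Psi_base hno', T_single, up_st hno]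
  · intro x k hx hk ih
    have h1 := Desc_st hk
    rw [Psi_desc (Bd_st hx) h1, Psi_desc hx hk, T_th _ _ _ hk.2.2 hk.2.1 hk.1, ← ih, st_sw]
    have e1 : -(-k - 1) = k + 1 := by ring
    have e2 : -(-k - 1 + 1) = k := by ring
    simp only [st, e1, e2]

theorem Co_st {p q : ℤ} {x : Cfg} (hc : Co p q x) : Co (1 - q) (1 - p) (st x) := by
  intro s
  have h1 : st x s ≠ 0 ↔ x (-s) ≠ 0 := by simp [st]
  rw [h1, hc]
  omega

theorem emitR {W p q : ℤ} {x : Cfg} (hx : Bd W x) (hc : Co p q x) (hpq : p < q)
    (hxq : x (q - 1) < 0) :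
    P (q - 1) (Psi W x) = addc q (x (q - 1)) (Psi W (Function.update x (q - 1) 0)) := by
  apply T_inj
  have e0 : -(1 - q) = q - 1 := by ring
  have e0' : -(q - 1) = 1 - q := by ring
  have h0 : st x (1 - q) = - x (q - 1) := by simp only [st, e0]
  have h1 := emitL (Bd_st hx) (Co_st hc) (by omega) (by rw [h0]; omega)
  have h2 : Function.update (st x) (1 - q) 0 = st (Function.update x (q - 1) 0) := by
    funext s
    simp only [st, Function.update_apply]
    by_cases h : s = 1 - q
    · rw [if_pos h, if_pos (by omega)]; rfl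
    · rw [if_neg h, if_neg (by omega)]
  rw [h0, h2, Psi_st x hx, Psi_st _ (Bd_er hx _)] at h1
  rw [T_P, T_addc, e0']
  exact h1

theorem lastR {W p q : ℤ} {x : Cfg} (hx : Bd W x) (hc : Co p q x) (hpq : p ≤ q) :
    ∀ y ∈ (Psi W x).support, 0 ≤ y q := by
  intro y hy
  have h1 := firstL (Bd_st hx) (Co_st hc) (by omega) (sg y) (by
    rw [Psi_st x hx, Finsupp.mem_support_iff]
    have h2 : T (Psi W x) (sg y) = Psi W x y := Finsupp.mapDomain_apply sg_inj _ _
    rw [h2]
    exact Finsupp.mem_support_iff.mp hy)
  have h2 : sg y (1 - q) = - y q := by simp only [sg]; congr 2; ring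
  omega

theorem suppPsi {W p q : ℤ} : ∀ x : Cfg, Bd W x → Co p q x →
    ∀ y ∈ (Psi W x).support, ∀ s, (s < p ∨ q < s) → y s = 0 := by
  apply Psi_ind (Q := fun x => Co p q x →
    ∀ y ∈ (Psi W x).support, ∀ s, (s < p ∨ q < s) → y s = 0)
  · intro x _ hno hc y hy s hs
    rw [Psi_base hno] at hy
    have := Finsupp.support_single_subset hy
    rw [Finset.mem_singleton] at this
    rw [this]
    have h1 : x s = 0 := by
      by_contra h
      have := (hc s).mp h
      omega
    have h2 : x (s - 1) = 0 := by
      by_contra h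
      have := (hc (s - 1)).mp h
      omega
    simp [up, h1, h2]
  · intro x k hx hk ih hc y hy s hs
    rw [Psi_desc hx hk] at hy
    have h1 := (hc k).mp hk.1
    have h2 := (hc (k + 1)).mp hk.2.1
    obtain ⟨y', hy', h | h | h⟩ := supp_th hy
    · rw [h, act_o _ _ _ (by omega) (by omega)]
      exact ih (Co_sw hc hk) y' hy' s hs
    · rw [h, act_o _ _ _ (by omega) (by omega)]
      exact ih (Co_sw hc hk) y' hy' s hs
    · rw [h]
      exact ih (Co_sw hc hk) y' hy' s hs

end Pool.Agent.Y999.ST
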