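import Mathlib

/-!
# Colored TASEP with cross-ordered rectangles (MP_71af4b_pr): definitions and interface statements
-/

namespace Pool.Agent.Y999.ST

open MeasureTheory ProbabilityTheory
open scoped ENNReal

/-- Time of ring number `n` (`n = 0, 1, 2, …`) of a clock whose successive waiting times are
`g 0, g 1, g 2, …`. -/
noncomputable def arr (g : ℕ → ℝ) (n : ℕ) : ℝ := ∑ i ∈ Finset.range (n + 1), g i

/-- The set of all ring times of the clock with waiting times `g 0, g 1, …`. -/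
def rings (g : ℕ → ℝ) : Set ℝ := Set.range (arr g)

/-- `ζ t x` (the color at site `x` at time `t`) is a trajectory of the colored TASEP on `ℤ` started
from the packed configuration, when the clock of the edge `(x, x + 1)` rings at the times in
`R x`. -/
structure IsColoredTASEP (R : ℤ → Set ℝ) (ζ : ℝ → ℤ → ℤ) : Prop where
  /-- at time `0` each site `x` holds a particle of color `x` -/
  init : ∀ x, ζ 0 x = x
  /-- the color at `x` does not change as long as neither of the two edges at `x` rings -/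
  stay : ∀ (x : ℤ) (s t : ℝ), 0 ≤ s → s ≤ t →
    (∀ u, s < u → u ≤ t → u ∉ R (x - 1) ∧ u ∉ R x) → ζ t x = ζ s x
  /-- when the edge `(x, x + 1)` rings at time `t`, the particles at `x` and `x + 1` (as they were
  just before) exchange positions if and only if the color at `x` is smaller than the color
  at `x + 1` -/
  ring : ∀ (x : ℤ) (s t : ℝ), 0 ≤ s → s < t → t ∈ R x → t ∉ R (x - 1) → t ∉ R (x + 1) →
    (∀ u, s < u → u < t → u ∉ R (x - 1) ∧ u ∉ R x ∧ u ∉ R (x + 1)) →
    (ζ s x < ζ s (x + 1) → ζ t x = ζ s (x + 1) ∧ ζ t (x + 1) = ζ s x) ∧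
    (¬ ζ s x < ζ s (x + 1) → ζ t x = ζ s x ∧ ζ t (x + 1) = ζ s (x + 1))

/-- The passage time `T^A_{B,C} = inf {t ≥ 0 : #{x ≥ A + B + 1 - C : ζ_t(x) ≤ A} ≥ C}`, with values
in `[0, ∞]`. -/
noncomputable def passage (ζ : ℝ → ℤ → ℤ) (A : ℤ) (B C : ℕ) : ℝ≥0∞ :=
  ⨅ t ∈ {t : ℝ | 0 ≤ t ∧ (C : ℕ∞) ≤ {x : ℤ | A + B + 1 - C ≤ x ∧ ζ t x ≤ A}.encard},
    ENNReal.ofReal t

/-- The rectangle `[1, B] × [1, C]` translated by `(A, -A)`. -/
def rect (A : ℤ) (B C : ℕ) : Set (ℤ × ℤ) := Set.Icc (1 + A) (B + A) ×ˢ Set.Icc (1 - A) (C - A)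

/-- The (partial) order on rectangles: the first projection of `R` contains that of `R'` and the
second projection of `R` is contained in that of `R'`. -/
def RLe (R R' : Set (ℤ × ℤ)) : Prop :=
  Prod.fst '' R' ⊆ Prod.fst '' R ∧ Prod.snd '' R ⊆ Prod.snd '' R'

/-! ### The functional of the clocks -/

/-- Ring times in `[0, ∞]`. -/
noncomputable def arrE (g : ℕ → ℝ≥0∞) (n : ℕ) : ℝ≥0∞ := ∑ i ∈ Finset.range (n + 1), g i

/-- The first ring after time `t`. -/
noncomputable def nxt (g : ℕ → ℝ≥0∞) (t : ℝ≥0∞) : ℝ≥0∞ := ⨅ (n : ℕ) (_ : t < arrE g n), arrE g n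

open Classical in
/-- The last-passage recursion. `h` records which passages have already been made. -/
noncomputable def TT (N : ℤ → ℝ≥0∞ → ℝ≥0∞) (h : ℕ → ℕ → Prop) (A : ℤ) : ℕ → ℕ → ℝ≥0∞
  | 0, _ => 0
  | _ + 1, 0 => 0
  | B + 1, C + 1 =>
    if h (B + 1) (C + 1) then 0
    else N (A + B - C) (max (TT N h A B (C + 1)) (TT N h A (B + 1) C))

/-- Good clocks: positive waiting times, infinitely many rings but finitely many in bounded time,
no simultaneous rings of different clocks, silent clocks arbitrarily far out in both directions. -/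
structure GoodClocks (g : ℤ → ℕ → ℝ) : Prop where
  pos : ∀ k n, 0 < g k n
  unb : ∀ k (t : ℝ), ∃ n, t < arr (g k) n
  dis : ∀ j k, j ≠ k → Disjoint (rings (g j)) (rings (g k))
  silR : ∀ (t : ℝ) (m : ℤ), ∃ k ≥ m, t < g k 0
  silL : ∀ (t : ℝ) (m : ℤ), ∃ k ≤ m, t < g k 0

/-- The law of the waiting times. -/
noncomputable def clk : Measure (ℤ × ℕ → ℝ) := Measure.infinitePi (fun _ => expMeasure 1)

open Classical in
/-- All the clocks in `s` are delayed by `γ`, and one extra ring at time `γ` is given to the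
clock `k`. -/
noncomputable def ins (s : Finset ℤ) (k : ℤ) (γ : ℝ) (g : ℤ × ℕ → ℝ) : ℤ × ℕ → ℝ := fun p =>
  if p.1 = k then (if p.2 = 0 then γ else g (k, p.2 - 1))
  else if p.1 ∈ s ∧ p.2 = 0 then γ + g (p.1, 0) else g p

/-- JOB SUP: the superposition principle for independent exponential clocks. -/
def StSUP : Prop := ∀ (s : Finset ℤ), s.Nonempty →
  clk = (s.card : ℝ≥0∞)⁻¹ • ∑ k ∈ s,
    ((expMeasure (s.card : ℝ)).prod clk).map (fun q => ins s k q.1 q.2)

/-- JOB AS: independent exponential clocks are almost surely good. -/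
def StAS : Prop := ∀ {Ω : Type} [MeasurableSpace Ω] (P : Measure Ω) [IsProbabilityMeasure P]
  (gap : ℤ → ℕ → Ω → ℝ), (∀ k n, Measurable (gap k n)) →
  (∀ k n, P.map (gap k n) = expMeasure 1) →
  iIndepFun (fun p : ℤ × ℕ => gap p.1 p.2) P →
  ∀ᵐ ω ∂P, GoodClocks (fun k n => gap k n ω)

/-- JOB PATH: for good clocks the passage times of every trajectory are given by the
last-passage recursion. -/
def StPATH : Prop := ∀ (g : ℤ → ℕ → ℝ), GoodClocks g →
  ∀ ζ : ℝ → ℤ → ℤ, IsColoredTASEP (fun k => rings (g k)) ζ →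
  ∀ (A : ℤ) (B C : ℕ), passage ζ A B C =
    TT (fun k => nxt (fun n => ENNReal.ofReal (g k n))) (fun _ _ => False) A B C

/-- JOB EX: for good clocks there is a trajectory. -/
def StEX : Prop := ∀ (g : ℤ → ℕ → ℝ), GoodClocks g →
  ∃ ζ : ℝ → ℤ → ℤ, IsColoredTASEP (fun k => rings (g k)) ζ

end Pool.Agent.Y999.ST
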