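import Pool.Agent.Y999.ST.Loc

/-!
# The global intertwining identity, total mass and norm
-/

namespace Pool.Agent.Y999.ST

theorem Icc_insert_right {a b : ℤ} (h : a ≤ b + 1) :
    Finset.Icc a (b + 1) = insert (b + 1) (Finset.Icc a b) := by
  ext s; simp only [Finset.mem_Icc, Finset.mem_insert]; omega

theorem tele (f : ℤ → V) (a : ℤ) : ∀ b, a ≤ b →
    ∑ k ∈ Finset.Icc a b, f (k + 1) = ∑ k ∈ Finset.Icc a b, f k - f a + f (b + 1) := by
  intro b hb
  induction b, hb using Int.leInduction with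
  | base => simp
  | succ b hb ih =>
    rw [Icc_insert_right (by omega), Finset.sum_insert (by simp), Finset.sum_insert (by simp), ih]
    abel

/-- The global intertwining identity. -/
theorem sum_id {W κ lam : ℤ} {ξ : Cfg} (h : XT W κ lam ξ) {a b : ℤ} (ha : a ≤ κ)
    (hb : lam ≤ b + 1) :
    ∑ k ∈ Finset.Icc a b, FF W (nk κ k ξ) (nl lam k ξ) (act k ξ) =
      ∑ k ∈ Finset.Icc a b, (if k = a then FF W κ lam ξ else P k (FF W κ lam ξ)) := by
  have hlt := h.lt
  have hab : a ≤ b := by omega
  set F0 := FF W κ lam ξ with hF0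
  set D : ℤ → V := fun j => P j F0 - F0 with hD
  set e : ℤ → V := fun j => if ξ j < 0 ∨ lam ≤ j then D j else 0 with he
  set f : ℤ → V := fun j => if 0 < ξ j ∨ j ≤ κ then D j else 0 with hf
  have z1 := h.z1
  have z2 := h.z2
  have hef : ∀ j, e j + f j = D j := by
    intro j
    simp only [he, hf]
    rcases lt_trichotomy j κ with h1 | h1 | h1
    · have := h.le j h1
      rw [if_neg (by omega), if_pos (by omega), zero_add]
    · subst h1
      rw [if_neg (by omega), if_pos (by omega), zero_add]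
    · rcases lt_trichotomy j lam with h2 | h2 | h2
      · have := h.ne j h1 h2
        rcases lt_or_gt_of_ne this with h3 | h3
        · rw [if_pos (by omega), if_neg (by omega), add_zero]
        · rw [if_neg (by omega), if_pos (by omega), zero_add]
      · subst h2
        rw [if_pos (by omega), if_neg (by omega), add_zero]
      · have := h.ri j h2
        rw [if_pos (by omega), if_neg (by omega), add_zero]
  have hfa : f a = D a := by
    simp only [hf]; rw [if_pos (by omega)]
  have hfb : f (b + 1) = 0 := by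
    have : ξ (b + 1) ≤ 0 := by
      rcases lt_or_eq_of_le hb with h1 | h1
      · exact h.ri _ h1
      · rw [← h1]; omega
    simp only [hf]; rw [if_neg (by omega)]
  have h1 : ∀ k ∈ Finset.Icc a b, FF W (nk κ k ξ) (nl lam k ξ) (act k ξ) =
      F0 + (e k + f (k + 1)) := by
    intro k _
    rw [loc h k, add_assoc]
  have h2 : ∀ k ∈ Finset.Icc a b, (if k = a then F0 else P k F0) =
      F0 + (D k - (if k = a then D k else 0)) := by
    intro k _
    by_cases hk : k = a
    · rw [if_pos hk, if_pos hk, sub_self, add_zero]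
    · rw [if_neg hk, if_neg hk, sub_zero]; simp only [hD]; abel
  rw [Finset.sum_congr rfl h1, Finset.sum_congr rfl h2, Finset.sum_add_distrib,
    Finset.sum_add_distrib, Finset.sum_add_distrib, tele f a b hab, hfa, hfb,
    Finset.sum_sub_distrib, Finset.sum_ite_eq' (Finset.Icc a b) a D,
    if_pos (Finset.mem_Icc.mpr ⟨le_rfl, hab⟩)]
  have h3 : ∑ k ∈ Finset.Icc a b, D k = ∑ k ∈ Finset.Icc a b, e k + ∑ k ∈ Finset.Icc a b, f k := by
    rw [← Finset.sum_add_distrib]
    exact Finset.sum_congr rfl (fun k _ => (hef k).symm)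
  rw [h3]
  abel

/-! ### Total mass -/

/-- The sum of the coefficients. -/
noncomputable def tot : V →ₗ[ℤ] ℤ := Finsupp.linearCombination ℤ (fun _ => (1 : ℤ))

theorem tot_eq (v : V) : tot v = v.sum (fun _ c => c) := by
  unfold tot
  rw [Finsupp.linearCombination_apply]
  simp

theorem tot_map (f : Cfg → Cfg) (v : V) : tot (Finsupp.lmapDomain ℤ ℤ f v) = tot v := by
  have : tot.comp (Finsupp.lmapDomain ℤ ℤ f) = tot := by
    apply Finsupp.lhom_ext
    intro y a
    simp [tot, Finsupp.mapDomain_single]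
  exact congrArg (fun g : V →ₗ[ℤ] ℤ => g v) this

theorem tot_th (k u w : ℤ) (v : V) : tot (th k u w v) = tot v := by
  unfold th
  split_ifs
  · exact tot_map _ _
  · exact tot_map _ _
  · simp only [LinearMap.sub_apply, LinearMap.add_apply, Module.End.one_apply, map_sub, map_add]
    have h1 : ∀ j, tot (P j v) = tot v := fun j => tot_map _ _
    rw [h1, h1]; ring

theorem tot_Psi {W : ℤ} : ∀ x : Cfg, Bd W x → tot (Psi W x) = 1 := by
  apply Psi_ind
  · intro x _ hno
    rw [Psi_base hno]
    simp [tot]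
  · intro x k hx hk ih
    rw [Psi_desc hx hk, tot_th, ih]

theorem tot_FF {W κ lam : ℤ} {ξ : Cfg} (h : XT W κ lam ξ) :
    (FF W κ lam ξ).sum (fun _ c => c) = 1 := by
  rw [← tot_eq]
  unfold FF
  rw [tot_map, tot_Psi _ (Bd_core h)]

/-! ### Norm -/

/-- The sum of the absolute values of the coefficients. -/
noncomputable def nrm (v : V) : ℤ := v.sum (fun _ c => |c|)

theorem nrm_eq {v : V} {S : Finset Cfg} (h : v.support ⊆ S) : nrm v = ∑ y ∈ S, |v y| := by
  unfold nrm
  exact Finsupp.sum_of_support_subset v h _ (by simp)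

open Classical in
theorem nrm_add (v w : V) : nrm (v + w) ≤ nrm v + nrm w := by
  rw [nrm_eq (v := v + w) (S := v.support ∪ w.support) Finsupp.support_add,
    nrm_eq (v := v) (S := v.support ∪ w.support) Finset.subset_union_left,
    nrm_eq (v := w) (S := v.support ∪ w.support) Finset.subset_union_right,
    ← Finset.sum_add_distrib]
  apply Finset.sum_le_sum
  intro y _
  rw [Finsupp.add_apply]
  exact abs_add_le _ _

theorem nrm_neg (v : V) : nrm (-v) = nrm v := by
  rw [nrm_eq (v := -v) (S := v.support) (by rw [Finsupp.support_neg]),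
    nrm_eq (v := v) (S := v.support) (le_refl _)]
  simp

theorem nrm_sub (v w : V) : nrm (v - w) ≤ nrm v + nrm w := by
  rw [sub_eq_add_neg]
  calc nrm (v + -w) ≤ nrm v + nrm (-w) := nrm_add _ _
    _ = _ := by rw [nrm_neg]

theorem nrm_zero : nrm 0 = 0 := by simp [nrm]

theorem nrm_nonneg (v : V) : 0 ≤ nrm v := by
  rw [nrm_eq (le_refl _)]
  exact Finset.sum_nonneg (fun _ _ => abs_nonneg _)

theorem nrm_single (y : Cfg) (c : ℤ) : nrm (Finsupp.single y c) = |c| := by
  simp [nrm]

theorem nrm_map (f : Cfg → Cfg) (v : V) : nrm (Finsupp.lmapDomain ℤ ℤ f v) ≤ nrm v := by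
  induction v using Finsupp.induction with
  | zero => simp [nrm_zero]
  | single_add y c v hy hc ih =>
    have h1 : nrm (Finsupp.single y c + v) = |c| + nrm v := by
      unfold nrm
      rw [Finsupp.sum_add_index_of_disjoint]
      · simp
      · rw [Finsupp.support_single_ne_zero _ hc]
        exact Finset.disjoint_singleton_left.mpr hy
    rw [map_add, h1]
    calc nrm (Finsupp.lmapDomain ℤ ℤ f (Finsupp.single y c) + Finsupp.lmapDomain ℤ ℤ f v)
        ≤ nrm (Finsupp.lmapDomain ℤ ℤ f (Finsupp.single y c)) +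
          nrm (Finsupp.lmapDomain ℤ ℤ f v) := nrm_add _ _
      _ ≤ |c| + nrm v := by
        have h2 : nrm (Finsupp.lmapDomain ℤ ℤ f (Finsupp.single y c)) = |c| := by
          rw [Finsupp.lmapDomain_apply, Finsupp.mapDomain_single, nrm_single]
        rw [h2]
        omega

theorem nrm_P (k : ℤ) (v : V) : nrm (P k v) ≤ nrm v := nrm_map _ _

theorem nrm_step {W κ lam : ℤ} {ξ : Cfg} (h : XT W κ lam ξ) (k : ℤ) :
    nrm (FF W (nk κ k ξ) (nl lam k ξ) (act k ξ)) ≤ 5 * nrm (FF W κ lam ξ) := by
  have h0 := nrm_nonneg (FF W κ lam ξ)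
  have hD : ∀ (p : Prop) [Decidable p] (j : ℤ),
      nrm (if p then P j (FF W κ lam ξ) - FF W κ lam ξ else 0) ≤ 2 * nrm (FF W κ lam ξ) := by
    intro p _ j
    split_ifs
    · calc nrm (P j (FF W κ lam ξ) - FF W κ lam ξ) ≤ nrm (P j (FF W κ lam ξ)) +
          nrm (FF W κ lam ξ) := nrm_sub _ _
        _ ≤ _ := by have := nrm_P j (FF W κ lam ξ); omega
    · rw [nrm_zero]; omega
  rw [loc h k]
  refine (nrm_add _ _).trans ?_
  have h1 := nrm_add (FF W κ lam ξ) (if ξ k < 0 ∨ lam ≤ k then P k (FF W κ lam ξ) -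
    FF W κ lam ξ else 0)
  have h2 := hD (ξ k < 0 ∨ lam ≤ k) k
  have h3 := hD (0 < ξ (k + 1) ∨ k + 1 ≤ κ) (k + 1)
  omega

open Classical in
/-- Supports along a step. -/
theorem supp_step {W κ lam : ℤ} {ξ : Cfg} (h : XT W κ lam ξ) (k : ℤ) {y : Cfg}
    (hy : y ∈ (FF W (nk κ k ξ) (nl lam k ξ) (act k ξ)).support) :
    ∃ y' ∈ (FF W κ lam ξ).support, y = y' ∨ y = act k y' ∨
      (y = act (k + 1) y' ∧ k + 1 < lam) := by
  have z2 := h.z2
  have hlt := h.lt
  have hsub : ∀ j, y ∈ (P j (FF W κ lam ξ) - FF W κ lam ξ).support →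
      ∃ y' ∈ (FF W κ lam ξ).support, y = y' ∨ y = act j y' := by
    intro j hj
    have h1 := Finsupp.support_sub hj
    rw [Finset.mem_union] at h1
    rcases h1 with h1 | h1
    · obtain ⟨y', h2, h3⟩ := supp_P h1
      exact ⟨y', h2, Or.inr h3.symm⟩
    · exact ⟨y, h1, Or.inl rfl⟩
  rw [loc h k] at hy
  have h1 := Finsupp.support_add hy
  rw [Finset.mem_union] at h1
  rcases h1 with h1 | h1
  · have h2 := Finsupp.support_add h1
    rw [Finset.mem_union] at h2
    rcases h2 with h2 | h2
    · exact ⟨y, h2, Or.inl rfl⟩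
    · split_ifs at h2 with h3
      · obtain ⟨y', h4, h5 | h5⟩ := hsub k h2
        · exact ⟨y', h4, Or.inl h5⟩
        · exact ⟨y', h4, Or.inr (Or.inl h5)⟩
      · simp at h2
  · split_ifs at h1 with h3
    · have h6 : k + 1 < lam := by
        by_contra h7
        rcases lt_or_eq_of_le (not_lt.mp h7) with h8 | h8
        · have := h.ri _ h8; omega
        · rw [← h8] at h3; omega
      obtain ⟨y', h4, h5 | h5⟩ := hsub (k + 1) h1
      · exact ⟨y', h4, Or.inl h5⟩
      · exact ⟨y', h4, Or.inr (Or.inr ⟨h5, h6⟩)⟩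
    · simp at h1

end Pool.Agent.Y999.ST
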