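import Pool.Agent.Y999.ST.Sum

/-!
# Counting tests
-/

namespace Pool.Agent.Y999.ST

/-- Number of values `≤ θ` at the sites `k + 1, …, b + 1`. -/
noncomputable def Hc (b θ k : ℤ) (y : Cfg) : ℤ :=
  ∑ s ∈ Finset.Ioc k (b + 1), (if y s ≤ θ then 1 else 0)

/-- Number of values `≥ θ` at the sites `a, …, k`. -/
noncomputable def Jc (a θ k : ℤ) (y : Cfg) : ℤ :=
  ∑ s ∈ Finset.Icc a k, (if θ ≤ y s then 1 else 0)

/-- Sums of a function of the values after a move. -/
theorem sum_act (i : ℤ → ℤ) (S : Finset ℤ) (c : ℤ) (y : Cfg) :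
    ∑ s ∈ S, i (act c y s) = ∑ s ∈ S, i (y s) +
      ((if c ∈ S then i (max (y c) (y (c + 1))) - i (y c) else 0) +
        (if c + 1 ∈ S then i (min (y c) (y (c + 1))) - i (y (c + 1)) else 0)) := by
  have h1 : ∀ s ∈ S, i (act c y s) = i (y s) +
      ((if s = c then i (max (y c) (y (c + 1))) - i (y c) else 0) +
        (if s = c + 1 then i (min (y c) (y (c + 1))) - i (y (c + 1)) else 0)) := by
    intro s _
    rw [act_apply]
    by_cases h1 : s = c
    · subst h1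
      rw [if_pos rfl, if_pos rfl, if_neg (by omega)]
      ring
    · rw [if_neg h1, if_neg h1]
      by_cases h2 : s = c + 1
      · subst h2
        rw [if_pos rfl, if_pos rfl]
        ring
      · rw [if_neg h2, if_neg h2]
        ring
  rw [Finset.sum_congr rfl h1, Finset.sum_add_distrib, Finset.sum_add_distrib,
    Finset.sum_ite_eq', Finset.sum_ite_eq']

theorem Hc_step {b θ k c : ℤ} (hc : c ≤ b) (y : Cfg) : Hc b θ k (act c y) =
    Hc b θ k y + (if c = k ∧ y k ≤ θ ∧ θ < y (k + 1) then 1 else 0) := by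
  unfold Hc
  rw [sum_act (fun v => if v ≤ θ then 1 else 0)]
  congr 1
  simp only [Finset.mem_Ioc]
  by_cases h1 : c = k
  · subst h1
    split_ifs <;> omega
  · split_ifs <;> omega

theorem Jc_step {a θ k c : ℤ} (hc : a ≤ c) (y : Cfg) : Jc a θ k (act c y) =
    Jc a θ k y + (if c = k ∧ y k < θ ∧ θ ≤ y (k + 1) then 1 else 0) := by
  unfold Jc
  rw [sum_act (fun v => if θ ≤ v then 1 else 0)]
  congr 1
  simp only [Finset.mem_Icc]
  by_cases h1 : c = k
  · subst h1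
    split_ifs <;> omega
  · split_ifs <;> omega

theorem Hc_pred {b θ k : ℤ} (hk : k ≤ b + 1) (y : Cfg) :
    Hc b θ (k - 1) y = Hc b θ k y + (if y k ≤ θ then 1 else 0) := by
  unfold Hc
  have : Finset.Ioc (k - 1) (b + 1) = insert k (Finset.Ioc k (b + 1)) := by
    ext s; simp only [Finset.mem_Ioc, Finset.mem_insert]; omega
  rw [this, Finset.sum_insert (by simp)]
  ring

theorem Jc_succ {a θ k : ℤ} (hk : a ≤ k + 1) (y : Cfg) :
    Jc a θ (k + 1) y = Jc a θ k y + (if θ ≤ y (k + 1) then 1 else 0) := by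
  unfold Jc
  rw [Icc_insert_right hk, Finset.sum_insert (by simp)]
  ring

theorem Hc_nonneg (b θ k : ℤ) (y : Cfg) : 0 ≤ Hc b θ k y :=
  Finset.sum_nonneg (fun _ _ => by split_ifs <;> norm_num)

theorem Jc_nonneg (a θ k : ℤ) (y : Cfg) : 0 ≤ Jc a θ k y :=
  Finset.sum_nonneg (fun _ _ => by split_ifs <;> norm_num)

theorem Hc_mono_act {b θ k c : ℤ} (hc : c ≤ b) (y : Cfg) : Hc b θ k y ≤ Hc b θ k (act c y) := by
  rw [Hc_step hc]; split_ifs <;> omega

theorem Jc_mono_act {a θ k c : ℤ} (hc : a ≤ c) (y : Cfg) : Jc a θ k y ≤ Jc a θ k (act c y) := by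
  rw [Jc_step hc]; split_ifs <;> omega

theorem Hc_mono_theta {b θ θ' k : ℤ} (h : θ ≤ θ') (y : Cfg) : Hc b θ k y ≤ Hc b θ' k y :=
  Finset.sum_le_sum (fun s _ => by split_ifs <;> omega)

theorem Jc_mono_theta {a θ θ' k : ℤ} (h : θ' ≤ θ) (y : Cfg) : Jc a θ k y ≤ Jc a θ' k y :=
  Finset.sum_le_sum (fun s _ => by split_ifs <;> omega)

theorem Hc_lip {b θ k m : ℤ} (h : k ≤ m) (hm : m ≤ b + 1) (y : Cfg) :
    Hc b θ k y ≤ Hc b θ m y + (m - k) := by
  induction m, h using Int.leInduction with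
  | base => omega
  | succ m h ih =>
    have h1 := ih (by omega)
    have h2 := Hc_pred (b := b) (θ := θ) (k := m + 1) hm y
    have e0 : m + 1 - 1 = m := by ring
    rw [e0] at h2
    split_ifs at h2 <;> omega

theorem Jc_lip {a θ k m : ℤ} (h : m ≤ k) (hm : a ≤ m + 1) (y : Cfg) :
    Jc a θ k y ≤ Jc a θ m y + (k - m) := by
  induction k, h using Int.leInduction with
  | base => omega
  | succ k h ih =>
    have h2 := Jc_succ (a := a) (θ := θ) (k := k) (by omega) y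
    split_ifs at h2 <;> omega

/-- First kind of tests (labelled particles). -/
def h1 (b θ A : ℤ) (y : Cfg) (B C : ℕ) : Prop := (C : ℤ) ≤ Hc b θ (A + B - C) y

/-- Second kind of tests (big particles). -/
def h2 (a θ A : ℤ) (y : Cfg) (B C : ℕ) : Prop := (B : ℤ) ≤ Jc a θ (A + B - C) y

/-- Invariants. -/
def inv1 (b θ A : ℤ) (C : ℕ) (y : Cfg) : Prop := ∀ C' : ℕ, C' ≤ C → (C' : ℤ) ≤ Hc b θ (A - C') y

def inv2 (a θ A : ℤ) (B : ℕ) (y : Cfg) : Prop := ∀ B' : ℕ, B' ≤ B → (B' : ℤ) ≤ Jc a θ (A + B') y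

theorem inv1_act {b θ A : ℤ} {C : ℕ} {y : Cfg} (h : inv1 b θ A C y) {c : ℤ} (hc : c ≤ b) :
    inv1 b θ A C (act c y) := fun C' hC' => (h C' hC').trans (Hc_mono_act hc y)

theorem inv2_act {a θ A : ℤ} {B : ℕ} {y : Cfg} (h : inv2 a θ A B y) {c : ℤ} (hc : a ≤ c) :
    inv2 a θ A B (act c y) := fun B' hB' => (h B' hB').trans (Jc_mono_act hc y)

theorem h1_step {b θ A c : ℤ} {y : Cfg} {B C : ℕ} (hc : c ≤ b) (hinv : inv1 b θ A (C + 1) y)
    (hb : A + B - C ≤ b) :
    h1 b θ A (act c y) (B + 1) (C + 1) ↔ (h1 b θ A y (B + 1) (C + 1) ∨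
      (c = A + (B : ℤ) - (C : ℤ) ∧ (B = 0 ∨ h1 b θ A y B (C + 1)) ∧
        (C = 0 ∨ h1 b θ A y (B + 1) C))) := by
  unfold h1
  have e1 : A + ((B + 1 : ℕ) : ℤ) - ((C + 1 : ℕ) : ℤ) = A + B - C := by push_cast; ring
  have e2 : A + (B : ℤ) - ((C + 1 : ℕ) : ℤ) = A + B - C - 1 := by push_cast; ring
  have e3 : A + ((B + 1 : ℕ) : ℤ) - (C : ℤ) = A + B - C + 1 := by push_cast; ring
  rw [e1, e2, e3]
  set e := A + (B : ℤ) - (C : ℤ) with he
  rw [Hc_step hc]
  have p1 := Hc_pred (b := b) (θ := θ) (k := e) (by omega) y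
  have p2 := Hc_pred (b := b) (θ := θ) (k := e + 1) (by omega) y
  have e0 : e + 1 - 1 = e := by ring
  rw [e0] at p2
  have h0 : B = 0 → ((C + 1 : ℕ) : ℤ) ≤ Hc b θ (e - 1) y := by
    intro hB
    have := hinv (C + 1) le_rfl
    have e4 : A - ((C + 1 : ℕ) : ℤ) = e - 1 := by rw [he, hB]; push_cast; ring
    rw [e4] at this
    exact this
  have h0' := Hc_nonneg b θ (e + 1) y
  push_cast at *
  by_cases hB : B = 0
  · have := h0 hB
    by_cases hC : C = 0
    · simp only [hB, hC, true_or, and_true]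
      subst hC
      split_ifs at p1 p2 ⊢ <;> push_cast at * <;> omega
    · simp only [hB, hC, true_or, false_or, true_and]
      split_ifs at p1 p2 ⊢ <;> omega
  · by_cases hC : C = 0
    · simp only [hB, hC, true_or, false_or, and_true]
      subst hC
      split_ifs at p1 p2 ⊢ <;> push_cast at * <;> omega
    · simp only [hB, hC, false_or]
      split_ifs at p1 p2 ⊢ <;> omega

theorem h2_step {a θ A c : ℤ} {y : Cfg} {B C : ℕ} (hc : a ≤ c) (hinv : inv2 a θ A (B + 1) y)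
    (ha : a ≤ A + B - C) :
    h2 a θ A (act c y) (B + 1) (C + 1) ↔ (h2 a θ A y (B + 1) (C + 1) ∨
      (c = A + (B : ℤ) - (C : ℤ) ∧ (B = 0 ∨ h2 a θ A y B (C + 1)) ∧
        (C = 0 ∨ h2 a θ A y (B + 1) C))) := by
  unfold h2
  have e1 : A + ((B + 1 : ℕ) : ℤ) - ((C + 1 : ℕ) : ℤ) = A + B - C := by push_cast; ring
  have e2 : A + (B : ℤ) - ((C + 1 : ℕ) : ℤ) = A + B - C - 1 := by push_cast; ring
  have e3 : A + ((B + 1 : ℕ) : ℤ) - (C : ℤ) = A + B - C + 1 := by push_cast; ring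
  rw [e1, e2, e3]
  set e := A + (B : ℤ) - (C : ℤ) with he
  rw [Jc_step hc]
  have p1 := Jc_succ (a := a) (θ := θ) (k := e) (by omega) y
  have p2 := Jc_succ (a := a) (θ := θ) (k := e - 1) (by omega) y
  have e0 : e - 1 + 1 = e := by ring
  rw [e0] at p2
  have h0 : C = 0 → ((B + 1 : ℕ) : ℤ) ≤ Jc a θ (e + 1) y := by
    intro hC
    have := hinv (B + 1) le_rfl
    have e4 : A + ((B + 1 : ℕ) : ℤ) = e + 1 := by rw [he, hC]; push_cast; ring
    rw [e4] at this
    exact this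
  have h0' := Jc_nonneg a θ (e - 1) y
  push_cast at *
  by_cases hC : C = 0
  · have := h0 hC
    by_cases hB : B = 0
    · simp only [hB, hC, true_or, and_true]
      subst hB
      split_ifs at p1 p2 ⊢ <;> push_cast at * <;> omega
    · simp only [hB, hC, true_or, false_or, and_true]
      split_ifs at p1 p2 ⊢ <;> omega
  · by_cases hB : B = 0
    · simp only [hB, hC, true_or, false_or, true_and]
      subst hB
      split_ifs at p1 p2 ⊢ <;> push_cast at * <;> omega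
    · simp only [hB, hC, false_or]
      split_ifs at p1 p2 ⊢ <;> omega

/-! ### The tests agree on the support of the intertwiner -/

/-- Left counter. -/
def cntL (a L κ : ℤ) (ξ : Cfg) : Prop := Jc a 1 κ ξ = κ - (L - 1)

/-- Right counter. -/
def cntR (b R lam : ℤ) (ξ : Cfg) : Prop := Hc b (-1) (lam - 1) ξ = R - lam

theorem cntL_step {W κ lam a L : ℤ} {ξ : Cfg} (h : XT W κ lam ξ) (hc : cntL a L κ ξ)
    (ha : a ≤ κ + 2) {k : ℤ} (hk : a ≤ k) : cntL a L (nk κ k ξ) (act k ξ) := by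
  unfold cntL at *
  have z1 := h.z1
  rw [Jc_step hk]
  by_cases c1 : k = κ ∧ 0 < ξ (κ + 1)
  · have e1 : nk κ k ξ = κ + 1 := by unfold nk; rw [if_pos c1]
    rw [e1, if_neg (by omega), Jc_succ (by omega), if_pos (by omega), hc]
    ring
  · have e1 : nk κ k ξ = κ := by unfold nk; rw [if_neg c1]
    rw [e1, if_neg, hc]
    · ring
    · rintro ⟨h3, h4, h5⟩
      exact c1 ⟨h3, by omega⟩

theorem cntR_step {W κ lam b R : ℤ} {ξ : Cfg} (h : XT W κ lam ξ) (hc : cntR b R lam ξ)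
    (hb : lam ≤ b + 1) {k : ℤ} (hk : k ≤ b) : cntR b R (nl lam k ξ) (act k ξ) := by
  unfold cntR at *
  have z2 := h.z2
  rw [Hc_step hk]
  by_cases c1 : k + 1 = lam ∧ ξ (lam - 1) < 0
  · have e1 : nl lam k ξ = lam - 1 := by unfold nl; rw [if_pos c1]
    rw [e1, if_neg (by omega), Hc_pred (by omega), if_pos (by omega), hc]
    ring
  · have e1 : nl lam k ξ = lam := by unfold nl; rw [if_neg c1]
    have e0 : lam - 1 + 1 = lam := by ring
    rw [e1, if_neg, hc]
    · ring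
    · rintro ⟨h3, h4, h5⟩
      exact c1 ⟨by omega, by omega⟩

theorem supp_FF {W κ lam : ℤ} {ξ : Cfg} {y : Cfg} (hy : y ∈ (FF W κ lam ξ).support) :
    ∃ y' ∈ (Psi W (core κ lam ξ)).support, ov κ lam ξ y' = y := by
  classical
  have h := Finsupp.mapDomain_support (f := ov κ lam ξ) hy
  rwa [Finset.mem_image] at h

theorem Jc_eq {W κ lam a : ℤ} {ξ : Cfg} (h : XT W κ lam ξ) (hξ : ξ (a - 1) = 0)
    {y : Cfg} (hy : y ∈ (FF W κ lam ξ).support) {θ k : ℤ} (hθ : 1 ≤ θ) (hk : k ≤ κ) :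
    Jc a θ (k + 1) y = Jc a θ k ξ := by
  obtain ⟨y', hy', rfl⟩ := supp_FF hy
  have hlt := h.lt
  have z1 := h.z1
  have hf := firstL (Bd_core h) (Co_core h) (by omega) y' hy'
  have e1 : ∀ s ∈ Finset.Icc a (k + 1), (if θ ≤ ov κ lam ξ y' s then (1 : ℤ) else 0) =
      (if θ ≤ ξ (s - 1) then 1 else 0) := by
    intro s hs
    rw [Finset.mem_Icc] at hs
    by_cases h3 : s ≤ κ
    · have e : ov κ lam ξ y' s = ξ (s - 1) := by simp only [ov]; rw [if_pos h3]
      rw [e]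
    · have h4 : s = κ + 1 := by omega
      subst h4
      have e0 : κ + 1 - 1 = κ := by ring
      have e : ov κ lam ξ y' (κ + 1) = y' (κ + 1) := by
        simp only [ov]; rw [if_neg h3, if_pos (by omega)]
      rw [e, e0, z1, if_neg (by omega), if_neg (by omega)]
  unfold Jc
  rw [Finset.sum_congr rfl e1]
  have e2 : ∑ s ∈ Finset.Icc a (k + 1), (if θ ≤ ξ (s - 1) then (1 : ℤ) else 0) =
      ∑ t ∈ Finset.Icc (a - 1) k, (if θ ≤ ξ t then (1 : ℤ) else 0) := by
    apply Finset.sum_bij (fun s _ => s - 1)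
    · intro s hs; rw [Finset.mem_Icc] at *; omega
    · intro s _ t _ h; omega
    · intro t ht
      rw [Finset.mem_Icc] at ht
      exact ⟨t + 1, by rw [Finset.mem_Icc]; omega, by ring⟩
    · intro s _; rfl
  rw [e2]
  by_cases h3 : a - 1 ≤ k
  · have : Finset.Icc (a - 1) k = insert (a - 1) (Finset.Icc a k) := by
      ext s; simp only [Finset.mem_Icc, Finset.mem_insert]; omega
    rw [this, Finset.sum_insert (by simp), hξ, if_neg (by omega), zero_add]
  · rw [Finset.Icc_eq_empty (by omega), Finset.Icc_eq_empty (by omega)]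

theorem Hc_eq {W κ lam b : ℤ} {ξ : Cfg} (h : XT W κ lam ξ)
    {y : Cfg} (hy : y ∈ (FF W κ lam ξ).support) {θ k : ℤ} (hθ : θ ≤ -1) (hk : lam - 1 ≤ k) :
    Hc b θ k y = Hc b θ k ξ := by
  obtain ⟨y', hy', rfl⟩ := supp_FF hy
  have hlt := h.lt
  have z2 := h.z2
  have hf := lastR (Bd_core h) (Co_core h) (by omega) y' hy'
  unfold Hc
  apply Finset.sum_congr rfl
  intro s hs
  rw [Finset.mem_Ioc] at hs
  by_cases h3 : s = lam
  · subst h3
    have e : ov κ s ξ y' s = y' s := by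
      simp only [ov]; rw [if_neg (by omega), if_pos le_rfl]
    rw [e, z2, if_neg (by omega), if_neg (by omega)]
  · have e : ov κ lam ξ y' s = ξ s := by
      simp only [ov]; rw [if_neg (by omega), if_neg (by omega)]
    rw [e]

/-- Tests of the second kind agree. -/
theorem test2 {W κ lam a L : ℤ} {ξ : Cfg} (h : XT W κ lam ξ) (hξ : ξ (a - 1) = 0)
    (hc : cntL a L κ ξ) (ha : a ≤ κ) {y : Cfg} (hy : y ∈ (FF W κ lam ξ).support)
    {θ A : ℤ} {B C : ℕ} (hθ : 1 ≤ θ) (hL : A + 1 - C ≤ L - 1) :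
    h2 a θ (A + 1) y B C ↔ h2 a θ A ξ B C := by
  unfold h2
  have e1 : A + 1 + (B : ℤ) - (C : ℤ) = A + B - C + 1 := by ring
  rw [e1]
  set k := A + (B : ℤ) - (C : ℤ) with hk
  by_cases h3 : k ≤ κ
  · rw [Jc_eq h hξ hy hθ h3]
  · have q1 : Jc a θ k ξ ≤ Jc a 1 κ ξ + (k - κ) :=
      (Jc_mono_theta hθ ξ).trans (Jc_lip (by omega) (by omega) ξ)
    have q2 : Jc a θ (k + 1) y ≤ Jc a 1 (κ + 1) y + (k + 1 - (κ + 1)) :=
      (Jc_mono_theta hθ y).trans (Jc_lip (by omega) (by omega) y)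
    have q3 := Jc_eq (θ := 1) (k := κ) h hξ hy le_rfl le_rfl
    unfold cntL at hc
    omega

/-- Tests of the first kind agree. -/
theorem test1 {W κ lam b R : ℤ} {ξ : Cfg} (h : XT W κ lam ξ)
    (hc : cntR b R lam ξ) (hb : lam ≤ b + 1) {y : Cfg} (hy : y ∈ (FF W κ lam ξ).support)
    {θ A : ℤ} {B C : ℕ} (hθ : θ ≤ -1) (hR : R ≤ A + B) :
    h1 b θ A y B C ↔ h1 b θ A ξ B C := by
  unfold h1
  set k := A + (B : ℤ) - (C : ℤ) with hk
  by_cases h3 : lam - 1 ≤ k
  · rw [Hc_eq h hy hθ h3]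
  · have q1 : Hc b θ k ξ ≤ Hc b (-1) (lam - 1) ξ + (lam - 1 - k) :=
      (Hc_mono_theta hθ ξ).trans (Hc_lip (by omega) (by omega) ξ)
    have q2 : Hc b θ k y ≤ Hc b (-1) (lam - 1) y + (lam - 1 - k) :=
      (Hc_mono_theta hθ y).trans (Hc_lip (by omega) (by omega) y)
    have q3 := Hc_eq (b := b) (θ := -1) (k := lam - 1) h hy le_rfl le_rfl
    unfold cntR at hc
    omega

end Pool.Agent.Y999.ST
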